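import Pool.Agent.Lib.MP_bc213e_ag.SB.D.Loc
import Pool.Agent.Lib.MP_bc213e_ag.SB.M.Main

/-! The line bundle on the base is nef. -/

set_option linter.unusedSectionVars false

namespace Pool.Agent.Lib.MP_bc213e_ag.SB

open Module IntermediateField Pool.Agent.Lib.MP_bc213e_ag.Hyp Pool.Agent.Lib.MP_bc213e_ag.KBB

variable {k K ι κ : Type} [Field k] [Field K] [Algebra k K] [Algebra ℂ k] [Algebra ℂ K]
  [IsScalarTower ℂ k K] {x g : ι → Kˣ} [Fintype ι] [Nonempty ι] {θ : K} {y H : κ → kˣ}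

theorem free_of_val {t : ℤ} {a : ℕ}
    (h : ∀ b (O : ValuationSubring k), (∀ r ∈ chart y b, r ∈ O) →
      ∃ s, Sec y H t a s ∧ O.valuation (fr y H t a b) ≤ O.valuation s) : Free y H t a := by
  intro b
  let I : Ideal (chart y b) := (Submodule.span (chart y b) {s | Sec y H t a s}).comap
    (LinearMap.toSpanSingleton _ _ (fr y H t a b))
  by_contra hn
  obtain ⟨O, h1, h2⟩ := Ideal.image_subset_nonunits_valuationSubring
    (A := (chart y b).toSubring) I fun e => hn (by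
      simpa [I, fr] using (Ideal.eq_top_iff_one I).1 e)
  obtain ⟨s, s1, s2⟩ := h b O h1
  have h3 := O.mem_nonunits_iff.1 (h2 ⟨⟨s / fr y H t a b, s1 b⟩, Submodule.subset_span
    (show Sec y H t a (s / fr y H t a b * fr y H t a b) by
      rwa [div_mul_cancel₀ _ (fr_ne _ _ _ _ _)]), rfl⟩)
  change O.valuation (s / _) < 1 at h3
  rw [map_div₀, div_lt_one₀ (O.valuation.pos_iff.2 (fr_ne _ _ _ _ _))] at h3
  exact h3.not_ge s2

theorem pole_bound (f : Frm k x) (b b' : κ) (hT : ∀ c ∈ f.T, c ∈ chart y b) (i : ι) :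
    ∃ e : ℕ, ∀ V : ValuationSubring K, (∀ r ∈ chart y b', algebraMap k K r ∈ V) →
      (∀ j, f.z j ∈ V) → (x i : K) / f.l0 * algebraMap k K (y b / y b') ^ e ∈ V := by
  have h0 : ∀ r ∈ chart y b', algebraMap k K r ∈
      Subring.closure (algebraMap k K '' chart y b' ∪ Set.range f.z) := fun r hr =>
    Subring.subset_closure (Or.inl ⟨r, hr, rfl⟩)
  obtain ⟨e, he⟩ := clear_pow (f := (x i : K) / f.l0) _ (h0 _ (Basic_mem y b' b))
    ((map_ne_zero _).2 (div_ne_zero (y b).ne_zero (y b').ne_zero)) fun V h1 h2 => by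
      have h3 : ∀ r ∈ chart y b', V.valuation.comap (algebraMap k K) r ≤ 1 := fun r hr =>
        (V.valuation_le_one_iff _).2 (h1 _ (h0 r hr))
      have h4 := fun c => h3 _ ((chart y b').algebraMap_mem c)
      have h5 : V.valuation.comap (algebraMap k K) (y b' / y b) ≤ 1 := by
        rwa [← V.valuation_le_one_iff, ← map_inv₀, inv_div] at h2
      have h6 := Basic_le _ h4 y b fun l => by
        have h6 := h3 _ (Basic_mem y b' l)
        rw [map_div₀, div_le_one₀ (Basic_pos _ _)] at h5 h6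
        exact h6.trans h5
      rw [← V.valuation_le_one_iff, map_div₀, div_le_one₀ (V.valuation.pos_iff.2 f.ne)]
      refine (f.low _ _ (fun c => ?_) (fun c hc => h6 c (hT c hc)) 1 le_rfl (fun j =>
        (V.valuation_le_one_iff _).2 (h1 _ (Subring.subset_closure (Or.inr ⟨j, rfl⟩)))) i).trans_eq
        (mul_one _)
      rw [IsScalarTower.algebraMap_apply ℂ k K]
      exact h4 c
  refine ⟨e, fun V h1 h2 => he V fun r hr => ?_⟩
  refine (Subring.closure_le (t := V.toSubring)).2 ?_ hr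
  rintro _ (⟨r, hr, rfl⟩ | ⟨j, rfl⟩)
  · exact h1 r hr
  · exact h2 j

theorem nef_base [Fintype κ]
    (normal : ∀ b, IsFractionRing (chart y b) k ∧ IsIntegrallyClosed (chart y b))
    (hn : Nef x g) (tor : TorV k x g θ) (f : κ → Frm k x) (hT : ∀ b, ∀ c ∈ (f b).T, c ∈ chart y b)
    {δ : ℕ} (cmp : ∀ b j (V : ValuationSubring K), (∀ r ∈ chart y b, algebraMap k K r ∈ V) →
      (∀ r ∈ chart x j, r ∈ V) →
        V.valuation (algebraMap k K (H b) * θ ^ δ) = V.valuation ((g j : K) ^ δ)) : Nef y H := by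
  classical
  intro t
  choose e₀ he₀ using fun p : κ × κ × ι => pole_bound (f p.1) p.1 p.2.1 (hT p.1) p.2.2
  obtain ⟨e, e0, he⟩ : ∃ e, 0 < e ∧ ∀ p, e₀ p ≤ e := ⟨Finset.univ.sup e₀ + 1, Nat.succ_pos _,
    fun p => (Finset.le_sup (Finset.mem_univ p)).trans (Nat.le_succ _)⟩
  obtain ⟨N, N0, hN⟩ := hn (δ * (t * e))
  obtain ⟨S, S1, S2⟩ := ua_free hN
  refine ⟨e * N * ∏ b, (f b).d, Nat.mul_pos (Nat.mul_pos e0 N0)
    (Finset.prod_pos fun b _ => (f b).d_pos), free_of_val fun b O hO => ?_⟩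
  have := (f b).fd
  obtain ⟨n, hn⟩ := Finset.dvd_prod_of_mem (fun b => (f b).d) (Finset.mem_univ b)
  obtain ⟨Q, hQ⟩ := exists_nq (f b).tb.1 fun s : S => (f b).sec_bd tor (S1 s.1 s.2)
  have cv : ∀ b' {Γ : Type} [LinearOrderedCommGroupWithZero Γ] (v : Valuation K Γ) j,
      (∀ r ∈ chart y b', v (algebraMap k K r) ≤ 1) → (∀ c : ℂ, v (algebraMap ℂ K c) ≤ 1) →
      (∀ i, v (x i) ≤ v (x j)) → v (g j / θ) ^ ((N : ℤ) * (δ * (t * e) : ℕ)) =
        v (algebraMap k K (H b')) ^ (t * e * N) := fun b' Γ _ v j h1 h2 h3 => by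
    have h4 := (v.isEquiv_valuation_valuationSubring.eq_iff ..).2
      (cmp b' j v.valuationSubring h1 (Basic_le v h2 x j h3))
    rw [map_mul, ← eq_div_iff (v.pos_iff.2 (pow_ne_zero _ tor.ne)).ne', ← map_div₀, ← div_pow,
      map_pow] at h4
    rw [h4, ← pow_mul, ← Nat.cast_mul, zpow_natCast]
    congr 1
    ring
  have h1 : ∀ q ∈ Q, Sec y H (t * e * N * (f b).d : ℕ) (e * N * (f b).d)
      (q * (y b : k) ^ (e * N * (f b).d)) := fun q hq b' => by
    have := (normal b').1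
    have := (normal b').2
    refine mem_of_val _ fun O' hO' => ?_
    obtain ⟨Γ, _, Φ, h⟩ := (f b).gf O' fun c => hO' _ ((chart y b').algebraMap_mem c)
    let σ0 : Fin (f b).d := ⟨0, (f b).d_pos⟩
    have h2 := (hQ Γ Φ σ0 (fun _ => Φ.v σ0 (algebraMap k K (H b')) ^ (t * e * N) *
      Φ.v σ0 (algebraMap k K (y b' / y b)) ^ (e * N)) h.cc).2 (h.gauss _) (fun σ s => by
      obtain ⟨j, hj⟩ := Finite.exists_max fun i => Φ.v σ (x i)
      have g1 := fun r hr => (h.ov σ r).2 (hO' r hr)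
      have g2 : Φ.v σ _ ≤ 1 := he₀ (b, b', j) (Φ.v σ).valuationSubring g1 (h.gauss σ).1
      have g3 := (Φ.v σ).pos_iff.2 ((map_ne_zero (algebraMap k K)).2
        (div_ne_zero (y b).ne_zero (y b').ne_zero))
      rw [Φ.agree_k σ0 σ, Φ.agree_k σ0 σ, ← cv b' _ j g1 (h.cc σ) hj, ← inv_div (y b : k), map_inv₀,
        map_inv₀, pow_mul, map_div₀, map_div₀, map_div₀, map_pow, map_zpow₀, div_div, div_zpow]
      refine (div_le_div_of_nonneg_right (sec_le _ (h.cc σ) hj (S1 s.1 s.2)) zero_le).trans ?_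
      rw [mul_div_mul_comm, ← div_pow (Φ.v σ _) _ N]
      refine mul_le_mul_right (pow_le_pow_left' ?_ _) _
      rw [map_mul, map_pow, map_div₀] at g2
      rw [inv_pow, ← one_div, le_div_iff₀ (pow_pos g3 _)]
      exact (mul_le_mul_right (pow_le_pow_right_of_le_one' (g1 _ (Basic_mem y b' b))
        (he (b, b', j))) _).trans g2) q hq
    have g4 : ∀ u : kˣ, 0 < Φ.v σ0 (algebraMap k K u) :=
      Basic_pos ((Φ.v σ0).comap (algebraMap k K))
    rw [← h.ov σ0]
    rw [Finset.prod_const, Finset.card_fin, mul_pow, ← pow_mul, ← pow_mul, map_div₀, map_div₀,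
      div_pow, ← mul_div_assoc, le_div_iff₀ (pow_pos (g4 _) _)] at h2
    simp only [zpow_natCast, map_div₀, map_mul, map_pow]
    exact div_le_one_of_le₀ h2 zero_le
  obtain ⟨Γ, _, Φ, h⟩ := (f b).gf O fun c => hO _ ((chart y b).algebraMap_mem c)
  let σ0 : Fin (f b).d := ⟨0, (f b).d_pos⟩
  have h2 := fun c hc => hO c (hT b c hc)
  choose c h3 using fun σ => Finite.exists_max fun i => Φ.v σ (x i)
  have h4 := fun β hβ => (hQ Γ Φ σ0 (fun _ => Φ.v σ0 (algebraMap k K (H b)) ^ (t * e * N))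
    h.cc).1 β 1 le_rfl (h.gauss _).1 hβ fun σ => by
      obtain ⟨r, r1, r2⟩ := S2 (c σ)
      by_contra hn
      push Not at hn
      refine (r2 ▸ (Φ.v σ).map_sum_lt (g := Φ.v σ (fr x g _ N (c σ)))
        ((Φ.v σ).pos_iff.2 (fr_ne _ _ _ _ _)).ne' fun s _ => ?_).ne rfl
      rw [map_mul]
      refine (mul_le_of_le_one_left' (Basic_le _ (h.cc σ) x _ (h3 σ) _ (r1 s))).trans_lt
        (lt_of_not_ge fun g1 => (hn s).not_ge ?_)
      rw [Φ.agree_k σ0 σ, ← cv b _ _ (fun r hr => (h.ov σ r).2 (hO r hr)) (h.cc σ) (h3 σ)]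
      exact (f b).sec_ge h2 h h3 tor.ne σ g1
  simp only [Finset.prod_const, Finset.card_fin, one_pow, mul_one, ← pow_mul] at h4
  have g4 : ∀ u : kˣ, 0 < Φ.v σ0 (algebraMap k K u) :=
    Basic_pos ((Φ.v σ0).comap (algebraMap k K))
  obtain ⟨q, q1, q2⟩ := Q.exists_max_image (fun q => Φ.v σ0 (algebraMap k K q))
    (Finset.nonempty_iff_ne_empty.2 fun e => (h4 0 (by simp [e])).not_gt (pow_pos (g4 _) _))
  refine ⟨(q * (y b : k) ^ (e * N * (f b).d)) ^ n, ?_, ?_⟩
  · have h5 := OW.sec_pow (h1 q q1) n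
    rwa [← Nat.cast_mul, show n * (t * e * N * (f b).d) = e * N * ((f b).d * n) * t by ring,
      show n * (e * N * (f b).d) = e * N * ((f b).d * n) by ring, Nat.cast_mul, ← hn] at h5
  · have h5 : ((Φ.v σ0).comap (algebraMap k K)).IsEquiv O.valuation :=
      Valuation.isEquiv_of_val_le_one fun c => (h.ov σ0 c).trans (O.valuation_le_one_iff c).symm
    refine (h5 _ _).1 ?_
    rw [fr, hn, ← Nat.cast_mul, zpow_natCast, map_mul, map_pow, map_pow, map_pow, map_mul, map_pow,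
      mul_pow, ← pow_mul, mul_assoc (e * N) _ n,
      show e * N * ((f b).d * n) * t = t * e * N * (f b).d * n by ring, pow_mul]
    exact mul_le_mul_left (pow_le_pow_left' (h4 _ q2) n) _

end Pool.Agent.Lib.MP_bc213e_ag.SB
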