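import Pool.Agent.Lib.MP_bc213e_ag.SB.D.Cmp

/-! Uniform bounds for the coordinates of regular sections. -/

set_option linter.unusedSectionVars false

namespace Pool.Agent.Lib.MP_bc213e_ag.SB

open Module IntermediateField MvPolynomial Pool.Agent.Lib.MP_bc213e_ag.Hyp

variable {k K ι : Type} [Field k] [Field K] [Algebra k K] [Algebra ℂ k] [Algebra ℂ K]
  [IsScalarTower ℂ k K] {x : ι → Kˣ} [Fintype ι] [Nonempty ι]

theorem Frm.coord_bd (f : Frm k x) {i₀ : ι} (frac : IsFractionRing (chart x i₀) K) (a : ℕ)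
    (φ : K →ₗ[k] k) : ∃ (T : Finset k) (n : ℕ), ∀ (O : ValuationSubring k) (c : k),
      (∀ c : ℂ, algebraMap ℂ k c ∈ O) → c ∈ O → (∀ z ∈ T, c * z ∈ O) → ∀ F : K,
        (∀ j (V : ValuationSubring K), (∀ c ∈ O, algebraMap k K c ∈ V) →
          (∀ r ∈ chart x j, r ∈ V) → F / (x j : K) ^ a ∈ V) → c ^ n * φ F ∈ O := by
  classical
  have := f.fd
  have : CharZero k := charZero_of_injective_algebraMap (algebraMap ℂ k).injective
  have hx : ∀ i, (x i : K) / f.l0 ∈ DB.Bd k f.z 1 := fun i => by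
    simpa using f.mem_bd (F := x i) (a := 1) fun V j _ h => by simpa using h i
  obtain ⟨u, u1, u2⟩ := DB.exists_primitive _ (gen_div (k := k) frac f.ne)
    (adjoin k (Set.range f.z))
  have u3 : u ∈ DB.Bd k f.z 1 := Submodule.span_le.2 (Set.range_subset_iff.2 hx) u1
  obtain ⟨δ, b, hb⟩ : ∃ (δ : ℕ) (b : Basis (Fin δ) (adjoin k (Set.range f.z)) K),
      ∀ j, b j = u ^ (j : ℕ) := by
    let pb := PowerBasis.ofAdjoinEqTop (IsIntegral.of_finite (adjoin k (Set.range f.z)) u)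
      ((adjoin_eq_top_iff_of_isAlgebraic fun a _ => Algebra.IsAlgebraic.isAlgebraic a).1 u2)
    exact ⟨pb.dim, pb.basis, fun j => by rw [pb.basis_eq_pow, PowerBasis.ofAdjoinEqTop_gen]⟩
  let β := (Algebra.traceForm _ K).dualBasis (traceForm_nondegenerate _ K) b
  obtain ⟨Q, hQ⟩ := exists_nq f.tb.1 (μ := 1)
    (w := fun o : Option (Option ι) => o.elim 1 fun o => o.elim u fun i => (x i : K) / f.l0)
    fun o => by
      rcases o with _ | _ | i
      · exact SB.mem_bd fun V γ _ h _ => by simpa using h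
      · exact u3
      · exact hx i
  refine ⟨Q ∪ ((Finsupp.finite_of_degree_le (σ := Fin f.r) (a + δ)).toFinset ×ˢ Finset.univ).image
    fun p => φ ((∏ i, f.z i ^ p.1 i) * β p.2 * f.l0 ^ a), a + δ + 1,
    fun O c hO c1 c2 F hF => ?_⟩
  rcases eq_or_ne c 0 with rfl | c0
  · simp
  obtain ⟨Γ, _, Φ, h⟩ := f.gf O hO
  let σ0 : Fin f.d := ⟨0, f.d_pos⟩
  have c3 := (Φ.v σ0).pos_iff.2 ((map_ne_zero (algebraMap k K)).2 c0)
  have c4 : ∀ z, c * z ∈ O → Φ.v σ0 (algebraMap k K z) ≤ (Φ.v σ0 (algebraMap k K c))⁻¹ :=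
    fun z hz => by rwa [← h.ov σ0, map_mul, map_mul, mul_comm, ← le_div_iff₀ c3, one_div] at hz
  have c5 : 1 ≤ (Φ.v σ0 (algebraMap k K c))⁻¹ := by simpa using c4 1 (by simpa using c1)
  have h1 : ∀ σ (o : Option ι), Φ.v σ (o.elim u fun i => (x i : K) / f.l0) ≤
      (Φ.v σ0 (algebraMap k K c))⁻¹ := fun σ o => by
    simpa [Finset.prod_update_of_mem] using (hQ Γ Φ σ0 (Function.update (fun _ => 1) σ
      (Φ.v σ (o.elim u fun i => (x i : K) / f.l0))) h.cc).1 _ 1 le_rfl (h.gauss _).1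
      (fun q hq => c4 q (c2 q (Finset.mem_union_left _ hq))) fun τ => by
        rcases eq_or_ne τ σ with rfl | e
        · exact ⟨some o, (Function.update_self ..).le⟩
        · exact ⟨none, by simp [e]⟩
  have h2 : ∀ {Γ : Type} [LinearOrderedCommGroupWithZero Γ] (v : Valuation K Γ) j,
      (∀ c ∈ O, v (algebraMap k K c) ≤ 1) → (∀ i, v (x i) ≤ v (x j)) → v F ≤ v (x j) ^ a :=
    fun v j g1 g2 => by
      have g3 : v _ ≤ 1 := hF j v.valuationSubring g1 (Basic_le v (fun c => by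
        rw [IsScalarTower.algebraMap_apply ℂ k K]
        exact g1 _ (hO c)) x j g2)
      rwa [map_div₀, map_pow, div_le_one₀ (pow_pos (Basic_pos _ _) _)] at g3
  have h3 := f.mem_bd (F := F) (a := a) fun V j g1 g2 => h2 _ j (fun c _ => g1 c) g2
  choose p p1 p2 using fun m : Fin δ => DB.kl_trace f.z f.tb.1 (DB.mul_mem_Bd f.z h3
    (DB.Bd_mono f.z (by omega) (hb m ▸ DB.pow_mem_Bd f.z u3 m) : b m ∈ DB.Bd k f.z δ))
  have h4 : F = ∑ m, ∑ α ∈ (p m).support, coeff α (p m) •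
      ((∏ i, f.z i ^ α i) * β m * f.l0 ^ a) := by
    rw [← div_mul_cancel₀ F (pow_ne_zero a f.ne), ← β.sum_repr (F / f.l0 ^ a), Finset.sum_mul]
    refine Finset.sum_congr rfl fun m _ => ?_
    rw [LinearMap.BilinForm.dualBasis_repr_apply, Algebra.traceForm_apply,
      IntermediateField.smul_def, smul_eq_mul, ← p2, aeval_def, eval₂_eq', Finset.sum_mul,
      Finset.sum_mul]
    exact Finset.sum_congr rfl fun α _ => by simp only [Algebra.smul_def, mul_assoc]
  rw [h4, map_sum, Finset.mul_sum]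
  refine sum_mem fun m _ => ?_
  rw [map_sum, Finset.mul_sum]
  refine sum_mem fun α hα => ?_
  rw [map_smul, smul_eq_mul, pow_succ, mul_mul_mul_comm]
  refine mul_mem ((h.ov σ0 _).1 ?_) (c2 _ (Finset.mem_union_right _ (Finset.mem_image.2
    ⟨(α, m), Finset.mem_product.2 ⟨(Set.Finite.mem_toFinset _).2
      ((le_totalDegree hα).trans (p1 m)), Finset.mem_univ _⟩, rfl⟩)))
  rw [map_mul, map_mul, map_pow, map_pow, mul_comm, ← le_div_iff₀ (pow_pos c3 _), one_div,
    ← inv_pow]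
  refine ((h.gauss σ0).2 _ _).trans (p2 m ▸ Φ.trace σ0 _ _ fun σ => ?_)
  obtain ⟨j, hj⟩ := Finite.exists_max fun i => Φ.v σ (x i)
  rw [map_mul, pow_add, hb, map_pow]
  refine mul_le_mul' ?_ ((pow_le_pow_left' (h1 σ none) _).trans (pow_le_pow_right' c5 m.2.le))
  refine le_trans ?_ (pow_le_pow_left' (h1 σ (some j)) a)
  rw [Option.elim_some, map_div₀, map_div₀, map_pow, div_pow]
  exact div_le_div_of_nonneg_right (h2 _ j (fun c hc => (h.ov σ c).2 hc) hj) zero_le

end Pool.Agent.Lib.MP_bc213e_ag.SB
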