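import Pool.Agent.Lib.MP_bc213e_ag.SB.D.Frm
import Pool.Agent.Lib.MP_bc213e_ag.DB.PF

/-! A nef line bundle that is trivial on the generic fibre has the same order along all components
of a fibre. -/

set_option linter.unusedSectionVars false

namespace Pool.Agent.Lib.MP_bc213e_ag.SB

open Module IntermediateField Pool.Agent.Lib.MP_bc213e_ag.Hyp Pool.Agent.Lib.MP_bc213e_ag.KBB

variable {k K ι : Type} [Field k] [Field K] [Algebra k K] [Algebra ℂ k] [Algebra ℂ K]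
  [IsScalarTower ℂ k K] {x g : ι → Kˣ} {Γ : Type} [LinearOrderedCommGroupWithZero Γ]

theorem GF.eq_of {r : ℕ} {z : Fin r → K} [FiniteDimensional (adjoin k (Set.range z)) K] {w : Val k}
    {Φ : Fam (adjoin k (Set.range z)) K Γ} (h : GF z w.valuationSubring Φ)
    (closed : ∀ e : K, IsAlgebraic k e → e ∈ (algebraMap k K).range)
    {m : Fin (finrank (adjoin k (Set.range z)) K) → Γ} (m0 : ∀ σ, 0 < m σ)
    (sec : ∀ σ, ∃ (U : Submodule k K) (_ : FiniteDimensional k U) (y : ℕ → K), (∀ t, y t ∈ U) ∧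
      (∀ τ t, Φ.v τ (y t) ≤ m τ ^ t) ∧ ∀ t, m σ ^ t ≤ Φ.v σ (y t))
    {q : k} (σ) (hq : Φ.v σ (algebraMap k K q) = ∏ σ, m σ) :
    Φ.v σ (algebraMap k K q) = m σ ^ finrank (adjoin k (Set.range z)) K := by
  have : CharZero k := charZero_of_injective_algebraMap (algebraMap ℂ k).injective
  have : Nonempty _ := ⟨σ⟩
  obtain ⟨σ1, h1⟩ := Finite.exists_min m
  obtain ⟨σ2, h2⟩ := Finite.exists_max m
  obtain ⟨U, _, y, y1, y2, y3⟩ := sec σ2
  obtain ⟨δ, hδ⟩ : ∃ δ, finrank (adjoin k (Set.range z)) K = δ := ⟨_, rfl⟩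
  have q0 : 0 < ∏ σ, m σ := Finset.prod_pos fun τ _ => m0 τ
  have e : ∀ τ t, Φ.v τ (q⁻¹ ^ t • y (δ * t)) = Φ.v τ (y (δ * t)) / (∏ σ, m σ) ^ t := fun τ t => by
    rw [Algebra.smul_def, map_mul, map_pow, map_pow, Φ.agree_k τ σ, map_inv₀, map_inv₀, hq, inv_pow,
      inv_mul_eq_div]
  have y4 : ∀ τ t, Φ.v τ (q⁻¹ ^ t • y (δ * t)) ≤ (m τ ^ δ / ∏ σ, m σ) ^ t := fun τ t => by
    rw [e, div_pow, ← pow_mul]
    exact div_le_div_of_nonneg_right (y2 τ _) zero_le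
  have y5 : ∀ t, (m σ2 ^ δ / ∏ σ, m σ) ^ t ≤ Φ.v σ2 (q⁻¹ ^ t • y (δ * t)) := fun t => by
    rw [e, div_pow, ← pow_mul]
    exact div_le_div_of_nonneg_right (y3 _) zero_le
  obtain ⟨c, hc⟩ := Φ.equiv h.cc (h.gauss σ) closed U (fun t => U.smul_mem _ (y1 (δ * t)))
    (σ := σ1) fun t => (y4 σ1 t).trans (pow_le_one' ((div_le_one₀ q0).2 (by
      simpa [hδ] using Finset.pow_card_le_prod Finset.univ m _ fun τ _ => h1 τ)) t)
  have key : m σ2 ^ δ / ∏ σ, m σ ≤ 1 := by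
    by_contra hn
    rw [not_le] at hn
    obtain ⟨u, c', u1, u2, u3⟩ := Φ.prod_max h.cc (h.gauss σ) ![1, q⁻¹ ^ 1 • y (δ * 1)]
    have he : ((Φ.v σ).comap (algebraMap k K)).IsEquiv w :=
      Valuation.isEquiv_of_val_le_one fun c => h.ov σ c
    have h3 : 1 < w c' := he.one_lt_iff_one_lt.1 (((hn.trans_eq (pow_one _).symm).trans_le
      ((y5 1).trans (u1 σ2 1))).trans_le ((Finset.single_le_prod'
        (fun τ _ => (map_one _).ge.trans (u1 τ 0)) (Finset.mem_univ σ2)).trans u3.ge))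
    have h4 : Φ.v σ (algebraMap k K c') ≤ (m σ2 ^ δ / ∏ σ, m σ) ^ δ := by
      refine u3.trans_le ((Finset.prod_le_pow_card _ _ _ fun τ _ => u2 τ _
        (Fin.forall_fin_two.2 ⟨(map_one _).le.trans hn.le, (y4 τ 1).trans ?_⟩)).trans_eq
        (by simp [hδ]))
      rw [pow_one]
      exact div_le_div_of_nonneg_right (pow_le_pow_left' (h2 τ) _) zero_le
    obtain ⟨n, h5⟩ := MulArchimedean.arch (w c) h3
    refine (pow_lt_pow_right₀ h3 n.lt_succ_self).not_ge (le_trans ?_ h5)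
    rw [← map_pow]
    refine (he _ _).1 ?_
    rw [map_pow]
    exact (pow_le_pow_left' h4 _).trans ((pow_mul ..).ge.trans ((y5 _).trans (hc σ2 _)))
  have h3 : ∀ τ, m τ = m σ2 := fun τ => (h2 τ).eq_of_not_lt fun hn => by
    refine ((div_le_one₀ q0).1 key).not_gt ?_
    simpa [hδ] using Finset.prod_lt_prod (s := Finset.univ) (fun τ _ => m0 τ) (fun τ _ => h2 τ)
      ⟨τ, Finset.mem_univ _, hn⟩
  simp [hq, h3]

variable (k x g) in
/-- `θ` generates `L` on the generic fibre. -/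
def TorV (θ : K) : Prop :=
  ∀ (V : ValuationSubring K) j, (∀ c, V.valuation (algebraMap k K c) ≤ 1) →
    (∀ i, V.valuation (x i) ≤ V.valuation (x j)) → V.valuation θ = V.valuation (g j : K)

variable [Fintype ι] [Nonempty ι] {θ : K}

theorem TorV.ne (tor : TorV k x g θ) : θ ≠ 0 := by
  obtain ⟨j, hj⟩ := Finite.exists_max fun i => (⊤ : ValuationSubring K).valuation (x i)
  exact (Valuation.pos_iff _).1 ((Basic_pos _ _).trans_eq
    (tor ⊤ j (fun _ => (ValuationSubring.valuation_le_one_iff _ _).2 trivial) hj).symm)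

namespace Frm

variable (f : Frm k x)

theorem sec_bd (tor : TorV k x g θ) {t : ℤ} {a : ℕ} {s : K} (hs : Sec x g t a s) :
    s / θ ^ t / f.l0 ^ a ∈ DB.Bd k f.z a :=
  f.mem_bd fun V j h1 h2 => by
    rw [map_div₀, map_zpow₀, tor V j h1 h2, div_le_iff₀' (zpow_pos (Basic_pos _ _) _)]
    exact sec_le _ (cc_le h1) h2 hs

theorem bd_fd {i₀ : ι} (frac : IsFractionRing (chart x i₀) K) (a : ℕ) :
    FiniteDimensional k (DB.Bd k f.z a) := by
  have : CharZero k := charZero_of_injective_algebraMap (algebraMap ℂ k).injective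
  obtain ⟨B, hB⟩ := DB.gcd_dim f.z (fun i => (x i : K) / f.l0) (fun i => ⟨1, by
    simpa using f.mem_bd (F := x i) (a := 1) fun V j _ h => by simpa using h i⟩)
    (gen_div frac f.ne) (n := f.r) (by simpa using f.tb.cardinalMk_eq_trdeg.symm)
  exact (hB a).1

variable {O : ValuationSubring k} (hT : ∀ c ∈ f.T, c ∈ O) {Φ : Fam (adjoin k (Set.range f.z)) K Γ}
  (h : GF f.z O Φ) {c : Fin f.d → ι} (hc : ∀ σ i, Φ.v σ (x i) ≤ Φ.v σ (x (c σ)))
include hT h hc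

theorem val_div (σ) (t : ℤ) (a : ℕ) {s : K} {γ : Γ} (h0 : θ ≠ 0) :
    (Φ.v σ (s / θ ^ t / f.l0 ^ a) ≤ γ * Φ.v σ (g (c σ) / θ) ^ t ↔
      Φ.v σ s ≤ γ * (Φ.v σ (g (c σ)) ^ t * Φ.v σ (x (c σ)) ^ a)) ∧
    (γ * Φ.v σ (g (c σ) / θ) ^ t ≤ Φ.v σ (s / θ ^ t / f.l0 ^ a) ↔
      γ * (Φ.v σ (g (c σ)) ^ t * Φ.v σ (x (c σ)) ^ a) ≤ Φ.v σ s) := by
  have h1 := zpow_pos ((Φ.v σ).pos_iff.2 h0) t
  have h2 := pow_pos (Basic_pos (Φ.v σ) (x (c σ))) a
  rw [map_div₀, map_div₀, map_div₀, map_pow, map_zpow₀, ← f.val_eq hT h σ (hc σ), div_zpow,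
    ← mul_div_assoc, div_right_comm, div_le_div_iff_of_pos_right h1, div_le_div_iff_of_pos_right h1,
    div_le_iff₀ h2, le_div_iff₀ h2, mul_assoc]
  exact ⟨Iff.rfl, Iff.rfl⟩

theorem sec_le (h0 : θ ≠ 0) (σ) {t : ℤ} {a : ℕ} {s : K} (hs : Sec x g t a s) :
    Φ.v σ (s / θ ^ t / f.l0 ^ a) ≤ Φ.v σ (g (c σ) / θ) ^ t := by
  simpa only [one_mul] using (f.val_div hT h hc σ t a (γ := 1) h0).1.2
    ((SB.sec_le _ (h.cc σ) (hc σ) hs).trans_eq (one_mul _).symm)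

theorem sec_ge (h0 : θ ≠ 0) (σ) {t : ℤ} {a : ℕ} {s : K}
    (hs : Φ.v σ (fr x g t a (c σ)) ≤ Φ.v σ s) :
    Φ.v σ (g (c σ) / θ) ^ t ≤ Φ.v σ (s / θ ^ t / f.l0 ^ a) := by
  simpa only [one_mul] using (f.val_div hT h hc σ t a (γ := 1) h0).2.2 (by simpa [fr] using hs)

end Frm

end Pool.Agent.Lib.MP_bc213e_ag.SB
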