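import Pool.Agent.Lib.MP_bc213e_ag.SB.D.Fam
import Pool.Agent.Lib.MP_bc213e_ag.DS.Abs

/-! Derivations are bounded at Gauss valuations, so conjugate Gauss valuations define equivalent
norms on spaces of finite dimension. -/

namespace Pool.Agent.Lib.MP_bc213e_ag.SB

open Module MvPolynomial IntermediateField

variable {k K Γ : Type} [Field k] [Field K] [Algebra k K] [LinearOrderedCommGroupWithZero Γ]
  {r : ℕ} {z : Fin r → K}

theorem der_aeval (D : Derivation k K K) (p : MvPolynomial (Fin r) k) :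
    D (aeval z p) = ∑ j, aeval z (pderiv j p) * D (z j) := by
  induction p using MvPolynomial.induction_on with
  | C c => simp
  | add p q hp hq => simp only [map_add, hp, hq, add_mul, Finset.sum_add_distrib]
  | mul_X p l hp =>
    simp only [map_mul, aeval_X, Derivation.leibniz, hp, pderiv_X, smul_eq_mul, map_add, add_mul,
      Finset.sum_add_distrib, Finset.mul_sum, Pi.single_apply, mul_assoc]
    simp

theorem aeval_mem (p : MvPolynomial (Fin r) k) : aeval z p ∈ adjoin k (Set.range z) :=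
  algebra_adjoin_le_adjoin k _ ((Algebra.adjoin_range_eq_range_aeval k z).ge ⟨p, rfl⟩)

theorem Gauss.poly {v : Valuation K Γ} (h : Gauss k z v) (p : MvPolynomial (Fin r) k) :
    ∃ c, v (aeval z p) = v (algebraMap k K c) := by
  rcases eq_or_ne p 0 with rfl | hp
  · exact ⟨0, by simp⟩
  obtain ⟨β, -, hβ⟩ := p.support.exists_max_image (fun β => v (algebraMap k K (coeff β p)))
    (support_nonempty.2 hp)
  refine ⟨coeff β p, le_antisymm ?_ (h.2 p β)⟩
  have h1 := aeval_le v le_rfl h.1 (p := p) (β := v (algebraMap k K (coeff β p))) (fun α => by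
    by_cases ha : coeff α p = 0
    · simp [ha]
    · exact hβ α (mem_support_iff.2 ha)) le_rfl
  rwa [one_pow, mul_one] at h1

theorem Gauss.field {v : Valuation K Γ} (h : Gauss k z v) {a : K}
    (ha : a ∈ adjoin k (Set.range z)) : ∃ c, v a = v (algebraMap k K c) := by
  obtain ⟨p, q, rfl⟩ := (mem_adjoin_range_iff k z a).1 ha
  obtain ⟨c, hc⟩ := h.poly p
  obtain ⟨d, hd⟩ := h.poly q
  exact ⟨c / d, by rw [map_div₀, hc, hd, map_div₀, map_div₀]⟩

theorem der_div (v : Valuation K Γ) (D : Derivation k K K) {a b : K} {γ : Γ}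
    (ha : v b * v (D a) ≤ γ) (hb : v a * v (D b) ≤ γ) : v (D (a / b)) ≤ (v b)⁻¹ ^ 2 * γ := by
  rw [D.leibniz_div, smul_eq_mul, smul_eq_mul, smul_eq_mul, map_mul, map_pow, map_inv₀]
  exact mul_le_mul_right (v.map_sub_le (by rwa [map_mul]) (by rwa [map_mul])) _

theorem Gauss.der {v : Valuation K Γ} (h : Gauss k z v) (D : Derivation k K K) {γ : Γ}
    (hD : ∀ j, v (D (z j)) ≤ γ) {a : K} (ha : a ∈ adjoin k (Set.range z)) :
    v (D a) ≤ v a * γ := by
  have h1 : ∀ p : MvPolynomial (Fin r) k, v (D (aeval z p)) ≤ v (aeval z p) * γ := fun p => by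
    rw [der_aeval]
    refine v.map_sum_le fun j _ => ?_
    rw [map_mul]
    refine mul_le_mul' ((aeval_le v le_rfl h.1 (β := v (aeval z p)) (fun α => ?_) le_rfl).trans_eq
      (by rw [one_pow, mul_one])) (hD j)
    rw [coeff_pderiv, map_mul, map_mul, ← Nat.cast_succ, map_natCast]
    exact (mul_le_of_le_one_right' (natCast_mem v.integer _ : v _ ≤ 1)).trans (h.2 p _)
  obtain ⟨p, q, rfl⟩ := (mem_adjoin_range_iff k z a).1 ha
  refine (der_div v D (γ := v (aeval z p) * v (aeval z q) * γ) ?_ ?_).trans ?_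
  · rw [mul_assoc, mul_left_comm]
    exact mul_le_mul_right (h1 p) _
  · rw [mul_assoc]
    exact mul_le_mul_right (h1 q) _
  · rcases eq_or_ne (v (aeval z q)) 0 with e | e
    · simp [e]
    · rw [map_div₀]
      refine le_of_eq ?_
      field_simp

namespace Fam

variable (Φ : Fam (adjoin k (Set.range z)) K Γ) {σ0 : Fin (finrank (adjoin k (Set.range z)) K)}

theorem agree' (σ τ) {a : K} (ha : a ∈ adjoin k (Set.range z)) : Φ.v σ a = Φ.v τ a :=
  Φ.agree σ τ ⟨a, ha⟩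

theorem agree_k (σ τ) (c : k) : Φ.v σ (algebraMap k K c) = Φ.v τ (algebraMap k K c) :=
  Φ.agree' σ τ (IntermediateField.algebraMap_mem _ c)

theorem gauss (h : Gauss k z (Φ.v σ0)) (σ) : Gauss k z (Φ.v σ) :=
  ⟨fun j => (Φ.agree' σ σ0 (subset_adjoin _ _ ⟨j, rfl⟩)).trans_le (h.1 j), fun p α =>
    (Φ.agree_k σ σ0 _).trans_le ((h.2 p α).trans_eq (Φ.agree' σ0 σ (aeval_mem p)))⟩

variable [Algebra ℂ K] (hc : ∀ σ (c : ℂ), Φ.v σ (algebraMap ℂ K c) ≤ 1) (h : Gauss k z (Φ.v σ0))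
include hc h

theorem prod_max {J : Type} [Fintype J] (y : J → K) : ∃ (u : K) (c : k),
    (∀ σ j, Φ.v σ (y j) ≤ Φ.v σ u) ∧ (∀ σ γ, (∀ j, Φ.v σ (y j) ≤ γ) → Φ.v σ u ≤ γ) ∧
      Φ.v σ0 (algebraMap k K c) = ∏ σ, Φ.v σ u := by
  obtain ⟨a, ha⟩ := exists_generic Φ.v hc y
  obtain ⟨c, h1⟩ := h.field (Algebra.norm (adjoin k (Set.range z)) (∑ i, a i • y i)).2
  refine ⟨_, c, ha, fun σ γ hγ => (Φ.v σ).map_sum_le fun j _ => ?_, h1.symm.trans (Φ.norm σ0 _)⟩
  rw [Algebra.smul_def, map_mul]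
  exact (mul_le_of_le_one_left' (hc σ _)).trans (hγ j)

theorem bdd {J : Type} [Fintype J] (y : J → K) :
    ∃ c : k, c ≠ 0 ∧ ∀ σ j, Φ.v σ (y j) ≤ Φ.v σ0 (algebraMap k K c) := by
  obtain ⟨u, c, h1, -, h2⟩ := Φ.prod_max hc h fun o : Option J => o.elim 1 y
  have h3 : ∀ σ, 1 ≤ Φ.v σ u := fun σ => (map_one _).ge.trans (h1 σ none)
  have h4 : ∀ σ, Φ.v σ u ≤ Φ.v σ0 (algebraMap k K c) := fun σ =>
    h2 ▸ Finset.single_le_prod' (fun τ _ => h3 τ) (Finset.mem_univ σ)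
  refine ⟨c, fun e => ?_, fun σ j => (h1 σ (some j)).trans (h4 σ)⟩
  simpa [e] using (h3 σ0).trans (h4 σ0)

variable [CharZero k] [FiniteDimensional (adjoin k (Set.range z)) K]

theorem der_bdd (D : Derivation k K K) : ∃ c : k, c ≠ 0 ∧
    ∀ σ y, Φ.v σ y ≤ 1 → Φ.v σ (D y) ≤ Φ.v σ0 (algebraMap k K c) := by
  classical
  let b := finBasis (adjoin k (Set.range z)) K
  let β := (Algebra.traceForm _ K).dualBasis (traceForm_nondegenerate _ K) b
  obtain ⟨c, c0, h1⟩ := Φ.bdd hc h (Sum.elim (fun j : Option (Fin r) => j.elim 1 fun j => D (z j))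
    fun p : _ × Fin 3 => ![b p.1, β p.1, D (β p.1)] p.2)
  refine ⟨c ^ 3, pow_ne_zero _ c0, ?_⟩
  rw [map_pow, map_pow]
  generalize Φ.v σ0 (algebraMap k K c) = γ at h1
  have key : ∀ σ s, (∀ τ, Φ.v τ s ≤ 1) → Φ.v σ (D s) ≤ γ ^ 3 := fun σ s hs => by
    rw [← β.sum_repr s, map_sum]
    refine (Φ.v σ).map_sum_le fun i _ => ?_
    have h2 : Φ.v σ (β.repr s i : K) ≤ γ := by
      rw [LinearMap.BilinForm.dualBasis_repr_apply, Algebra.traceForm_apply]
      refine Φ.trace σ _ _ fun τ => ?_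
      rw [map_mul]
      exact (mul_le_of_le_one_left' (hs τ)).trans (h1 τ (.inr (i, 0)))
    have h3 := ((Φ.gauss h σ).der D (fun j => h1 σ (.inl (some j))) (β.repr s i).2).trans
      (mul_le_mul_left h2 _)
    rw [IntermediateField.smul_def, smul_eq_mul, D.leibniz, smul_eq_mul, smul_eq_mul, pow_three]
    refine (Φ.v σ).map_add_le ?_ ?_ <;> rw [map_mul]
    · exact mul_le_mul' h2 ((h1 σ (.inr (i, 2))).trans (le_mul_of_one_le_left'
        ((map_one _).ge.trans (h1 σ (.inl none)))))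
    · exact mul_le_mul' (h1 σ (.inr (i, 1))) h3
  intro σ y hy
  obtain ⟨u, -, h2, h3, -⟩ := Φ.prod_max hc h ![1, y]
  have h4 : ∀ τ, 1 ≤ Φ.v τ u := fun τ => (map_one _).ge.trans (h2 τ 0)
  have h5 : Φ.v σ u = 1 := le_antisymm (h3 σ 1 (Fin.forall_fin_two.2 ⟨(map_one _).le, hy⟩)) (h4 σ)
  have h6 : ∀ j τ, Φ.v τ (![1, y] j / u) ≤ 1 := fun j τ => by
    rw [map_div₀]
    exact div_le_one_of_le₀ (h2 τ j) zero_le
  have h7 : u ≠ 0 := fun e => by simp [e] at h5
  have h8 := der_div (Φ.v σ) D (a := y / u) (b := 1 / u) (γ := γ ^ 3)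
    ((mul_le_of_le_one_left' (h6 0 σ)).trans (key σ _ (h6 1)))
    ((mul_le_of_le_one_left' (h6 1 σ)).trans (key σ _ (h6 0)))
  rwa [div_div_div_cancel_right₀ h7, div_one, map_div₀, map_one, h5, div_one, inv_one, one_pow,
    one_mul] at h8

theorem equiv (closed : ∀ e : K, IsAlgebraic k e → e ∈ (algebraMap k K).range)
    (U : Submodule k K) [FiniteDimensional k U] {y : ℕ → K} (hy : ∀ t, y t ∈ U) {σ}
    (h1 : ∀ t, Φ.v σ (y t) ≤ 1) :
    ∃ c : k, ∀ τ t, Φ.v τ (y t) ≤ Φ.v σ0 (algebraMap k K c) := by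
  let B : Submodule K (ℕ → K) :=
    { carrier := {y | ∃ c : k, c ≠ 0 ∧ ∀ t, Φ.v σ (y t) ≤ Φ.v σ0 (algebraMap k K c)}
      zero_mem' := ⟨1, one_ne_zero, fun _ => by simp⟩
      add_mem' := by
        rintro a b ⟨c, c0, ha⟩ ⟨d, d0, hb⟩
        rcases le_total (Φ.v σ0 (algebraMap k K c)) (Φ.v σ0 (algebraMap k K d)) with e | e
        · exact ⟨d, d0, fun t => (Φ.v σ).map_add_le ((ha t).trans e) (hb t)⟩
        · exact ⟨c, c0, fun t => (Φ.v σ).map_add_le (ha t) ((hb t).trans e)⟩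
      smul_mem' := by
        rintro a b ⟨c, c0, hb⟩
        obtain ⟨d, d0, ha⟩ := Φ.bdd hc h fun _ : Unit => a
        refine ⟨d * c, mul_ne_zero d0 c0, fun t => ?_⟩
        rw [Pi.smul_apply, smul_eq_mul, map_mul, map_mul, map_mul]
        exact mul_le_mul' (ha σ ()) (hb t) }
  let b := finBasis k U
  choose f hf using fun l => (Algebra.linearMap k K ∘ₗ b.coord l).exists_extend
  choose c _ h2 using fun l => DS.lin_bdd B closed (fun D a ⟨c, c0, ha⟩ => by
    obtain ⟨d, d0, h2⟩ := Φ.der_bdd hc h D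
    refine ⟨c * d, mul_ne_zero c0 d0, fun t => ?_⟩
    have h3 := (Φ.v σ0).pos_iff.2 ((map_ne_zero (algebraMap k K)).2 c0)
    have h4 := h2 σ (c⁻¹ • a t) (by
      rw [Algebra.smul_def, map_mul, Φ.agree_k σ σ0, map_inv₀, map_inv₀, inv_mul_le_one₀ h3]
      exact ha t)
    rwa [D.map_smul, Algebra.smul_def, map_mul, Φ.agree_k σ σ0, map_inv₀, map_inv₀,
      inv_mul_le_iff₀ h3, ← map_mul, ← map_mul] at h4) _ U rfl (f l) y
      ⟨1, one_ne_zero, by simpa using h1⟩ hy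
  obtain ⟨d, -, h3⟩ := Φ.bdd hc h fun l => algebraMap k K (c l) * b l
  refine ⟨d, fun τ t => ?_⟩
  rw [show y t = ∑ l, b.repr ⟨_, hy t⟩ l • (b l : K) from
    (congrArg Subtype.val (b.sum_repr ⟨_, hy t⟩).symm).trans (map_sum U.subtype _ _)]
  refine (Φ.v τ).map_sum_le fun l _ => le_trans ?_ (h3 τ l)
  rw [Algebra.smul_def, map_mul, map_mul, Φ.agree_k τ σ, Φ.agree_k τ σ0]
  exact mul_le_mul_left ((congrArg _ (LinearMap.congr_fun (hf l) ⟨_, hy t⟩)).ge.trans (h2 l t)) _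

end Fam

end Pool.Agent.Lib.MP_bc213e_ag.SB
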