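import Pool.Agent.Lib.MP_bc213e_ag.DB.GCD

/-! Conjugate valuations, Gauss valuations and general linear combinations. -/

namespace Pool.Agent.Lib.MP_bc213e_ag.SB

open Module MvPolynomial

theorem exists_centre {R Ω : Type} [CommRing R] [Field Ω] (f : R →+* Ω) (P : Ideal R) [P.IsPrime]
    (hf : ∀ r, f r = 0 → r ∈ P) :
    ∃ W : ValuationSubring Ω, (∀ r, f r ∈ W) ∧ ∀ r, W.valuation (f r) < 1 ↔ r ∈ P := by
  let φ : Localization.AtPrime P →+* Ω := IsLocalization.lift (M := P.primeCompl) (g := f)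
    fun y => (Ne.isUnit fun e => y.2 (hf _ e))
  have e : ∀ r, φ (algebraMap R _ r) = f r := fun r => IsLocalization.lift_eq _ r
  obtain ⟨W, h1, h2⟩ := IsLocalRing.exists_factor_valuationRing φ
  have h3 : ∀ r, f r ∈ W := fun r => e r ▸ h1 _
  refine ⟨W, h3, fun r => ?_⟩
  have h4 : (φ.codRestrict W.toSubring h1) (algebraMap R _ r) = (⟨f r, h3 r⟩ : W) :=
    Subtype.ext (e r)
  rw [← IsLocalization.AtPrime.to_map_mem_maximal_iff (Localization.AtPrime P) P,
    ← W.valuation_lt_one_iff ⟨f r, h3 r⟩, IsLocalRing.mem_maximalIdeal,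
    IsLocalRing.mem_maximalIdeal, mem_nonunits_iff, mem_nonunits_iff, ← h4]
  exact not_congr (isUnit_map_iff _ _)

theorem ext_of_centre {K Ω : Type} [Field K] [Field Ω] {f : K →+* Ω} {V : ValuationSubring K}
    {W : ValuationSubring Ω} (h1 : ∀ y ∈ V, f y ∈ W)
    (h2 : ∀ y, V.valuation y < 1 → W.valuation (f y) < 1) (y : K) : f y ∈ W ↔ y ∈ V := by
  refine ⟨fun h => by_contra fun hn => ?_, h1 y⟩
  rw [← V.valuation_le_one_iff, not_le] at hn
  have h0 : y ≠ 0 := fun e => by simp [e] at hn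
  have h3 := h2 y⁻¹ (by rw [map_inv₀]; exact inv_lt_one_of_one_lt₀ hn)
  rw [map_inv₀, map_inv₀, inv_lt_one₀ (W.valuation.pos_iff.2 ((map_ne_zero f).2 h0))] at h3
  exact h3.not_ge ((W.valuation_le_one_iff _).2 h)

theorem ext_hom {K Ω : Type} [Field K] [Field Ω] (f : K →+* Ω) (V : ValuationSubring K) :
    ∃ W : ValuationSubring Ω, ∀ y, f y ∈ W ↔ y ∈ V := by
  obtain ⟨W, h1, h2⟩ := exists_centre (f.comp V.subtype) (IsLocalRing.maximalIdeal V)
    fun r hr => by
      rw [show r = 0 from Subtype.ext ((map_eq_zero f).1 hr)]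
      exact zero_mem _
  exact ⟨W, ext_of_centre (fun y hy => h1 ⟨y, hy⟩) fun y hy =>
    (h2 ⟨y, (V.valuation_le_one_iff y).1 hy.le⟩).2 ((V.valuation_lt_one_iff _).2 hy)⟩

/-- The conjugates of a valuation in a finite extension. -/
structure Fam (F K Γ : Type) [Field F] [Field K] [Algebra F K]
    [LinearOrderedCommGroupWithZero Γ] where
  v : Fin (finrank F K) → Valuation K Γ
  agree : ∀ σ τ (a : F), v σ (algebraMap F K a) = v τ (algebraMap F K a)
  norm : ∀ σ y, v σ (algebraMap F K (Algebra.norm F y)) = ∏ τ, v τ y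
  trace : ∀ σ y γ, (∀ τ, v τ y ≤ γ) → v σ (algebraMap F K (Algebra.trace F K y)) ≤ γ

theorem exists_fam (F : Type) {K : Type} [Field F] [CharZero F] [Field K] [Algebra F K]
    [FiniteDimensional F K] (V : ValuationSubring K) :
    ∃ (Γ : Type) (_ : LinearOrderedCommGroupWithZero Γ) (Φ : Fam F K Γ) (σ : Fin (finrank F K)),
      (Φ.v σ).IsEquiv V.valuation := by
  obtain ⟨W, hW⟩ := ext_hom (algebraMap K (AlgebraicClosure K)) V
  let e := Fintype.equivFinOfCardEq (AlgHom.card F K (AlgebraicClosure K))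
  have h : ∀ σ (a : F), e.symm σ (algebraMap F K a) = algebraMap F _ a := fun σ a =>
    (e.symm σ).commutes a
  refine ⟨_, inferInstance, ⟨fun σ => W.valuation.comap (e.symm σ).toRingHom, fun σ τ a => ?_,
    fun σ y => ?_, fun σ y γ hy => ?_⟩, e (IsScalarTower.toAlgHom F K _), ?_⟩
  · exact congrArg W.valuation ((h σ a).trans (h τ a).symm)
  · refine (congrArg W.valuation ((h σ _).trans (Algebra.norm_eq_prod_embeddings F _ y))).trans ?_
    rw [map_prod]
    exact (e.symm.prod_comp fun τ => W.valuation (τ y)).symm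
  · refine (congrArg W.valuation ((h σ _).trans (trace_eq_sum_embeddings _))).trans_le
      (W.valuation.map_sum_le fun τ _ => ?_)
    simpa using hy (e τ)
  · refine Valuation.isEquiv_of_val_le_one fun y => ?_
    rw [V.valuation_le_one_iff, ← hW, ← W.valuation_le_one_iff]
    simp

variable {k K Γ : Type} [Field k] [Field K] [Algebra k K] [LinearOrderedCommGroupWithZero Γ]
  {r : ℕ}

theorem aeval_le (v : Valuation K Γ) {z : Fin r → K} {β γ : Γ} (h1 : 1 ≤ γ) (hz : ∀ j, v (z j) ≤ γ)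
    {p : MvPolynomial (Fin r) k} (hp : ∀ α, v (algebraMap k K (coeff α p)) ≤ β) {n : ℕ}
    (hn : p.totalDegree ≤ n) : v (aeval z p) ≤ β * γ ^ n := by
  rw [aeval_def, eval₂_eq']
  refine v.map_sum_le fun α hα => ?_
  rw [map_mul, map_prod]
  refine mul_le_mul' (hp α) ((Finset.prod_le_prod' (g := fun j => γ ^ α j) fun j _ => ?_).trans ?_)
  · rw [map_pow]
    exact pow_le_pow_left' (hz j) _
  · rw [Finset.prod_pow_eq_pow_sum]
    refine pow_le_pow_right' h1 (le_trans ?_ ((le_totalDegree hα).trans hn))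
    rw [Finsupp.sum_fintype _ _ fun _ => rfl]

variable (k) in
/-- The value of a polynomial in `z` is the largest value of its coefficients. -/
def Gauss (z : Fin r → K) (v : Valuation K Γ) : Prop :=
  (∀ j, v (z j) ≤ 1) ∧
    ∀ (p : MvPolynomial (Fin r) k) α, v (algebraMap k K (coeff α p)) ≤ v (aeval z p)

theorem exists_gauss {z : Fin r → K} (hz : AlgebraicIndependent k z) (O : ValuationSubring k) :
    ∃ V : ValuationSubring K, (∀ c, algebraMap k K c ∈ V ↔ c ∈ O) ∧ Gauss k z V.valuation := by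
  have hp : (RingHom.ker (MvPolynomial.map (σ := Fin r) (IsLocalRing.residue O))).IsPrime :=
    RingHom.ker_isPrime _
  obtain ⟨V, h1, h2⟩ := exists_centre ((aeval z : _ →ₐ[k] K).toRingHom.comp (map O.subtype))
    (RingHom.ker (MvPolynomial.map (IsLocalRing.residue O))) fun p h => by
      rw [show p = 0 from map_injective _ O.subtype_injective
        ((hz.eq_zero_of_aeval_eq_zero _ h).trans (map_zero _).symm)]
      exact zero_mem _
  refine ⟨V, ext_of_centre (fun c hc => by simpa using h1 (C ⟨c, hc⟩)) fun c hc => ?_,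
    fun j => (V.valuation_le_one_iff _).2 (by simpa using h1 (X j)), fun p α => ?_⟩
  · have h3 := (h2 (C ⟨c, (O.valuation_le_one_iff c).1 hc.le⟩)).2 (by
      rw [RingHom.mem_ker, map_C, (IsLocalRing.residue_eq_zero_iff _).2
        ((O.valuation_lt_one_iff _).2 hc), map_zero])
    simpa using h3
  by_cases hα : coeff α p = 0
  · simp [hα]
  obtain ⟨β, -, hβ⟩ := p.support.exists_max_image (fun β => O.valuation (coeff β p))
    ⟨α, mem_support_iff.2 hα⟩
  have h3 : ∀ a, coeff a p / coeff β p ∈ O := fun a => by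
    by_cases ha : coeff a p = 0
    · simp [ha]
    · rw [← O.valuation_le_one_iff, map_div₀]
      exact div_le_one_of_le₀ (hβ a (mem_support_iff.2 ha)) zero_le
  have h0 : coeff β p ≠ 0 := fun e => by
    have := hβ α (mem_support_iff.2 hα)
    rw [e, map_zero, le_zero_iff, map_eq_zero] at this
    exact hα this
  obtain ⟨q, hq⟩ := (mem_range_map_iff_coeffs_subset (f := O.subtype)
    (x := C (coeff β p)⁻¹ * p)).2 fun c hc => by
      obtain ⟨a, -, rfl⟩ := mem_coeffs_iff.1 hc
      exact ⟨⟨_, h3 a⟩, by rw [coeff_C_mul, inv_mul_eq_div]; rfl⟩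
  have h4 : V.valuation (aeval z (C (coeff β p)⁻¹ * p)) = 1 := by
    rw [← hq]
    refine ((V.valuation_le_one_iff _).2 (h1 q)).eq_of_not_lt fun h => ?_
    have h5 := congrArg (coeff β) (RingHom.mem_ker.1 ((h2 q).1 h))
    have h6 := congrArg (coeff β) hq
    rw [coeff_map, coeff_C_mul, inv_mul_cancel₀ h0] at h6
    rw [coeff_map, show coeff β q = 1 from Subtype.ext h6, map_one, coeff_zero] at h5
    exact one_ne_zero h5
  have h5 := (V.valuation_le_one_iff _).2 (h1 (C ⟨_, h3 α⟩))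
  have h6 := V.valuation.pos_iff.2 ((map_ne_zero (algebraMap k K)).2 h0)
  rw [map_mul, aeval_C, map_mul, map_inv₀, map_inv₀, inv_mul_eq_one₀ h6.ne'] at h4
  rw [← h4, ← div_le_one₀ h6]
  simpa using h5

theorem exists_generic [Algebra ℂ K] {S J : Type} [Finite S] [Fintype J] (v : S → Valuation K Γ)
    (hv : ∀ σ (c : ℂ), v σ (algebraMap ℂ K c) ≤ 1) (w : J → K) :
    ∃ c : J → ℂ, ∀ σ j, v σ (w j) ≤ v σ (∑ i, c i • w i) := by
  classical
  by_contra hn
  push Not at hn
  let U : S → Subspace ℂ (J → ℂ) := fun σ =>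
    { carrier := {c | ∑ i, c i • w i = 0 ∨ ∃ j, v σ (∑ i, c i • w i) < v σ (w j)}
      zero_mem' := Or.inl (by simp)
      add_mem' := by
        intro a b ha hb
        simp only [Set.mem_ofPred_eq, Pi.add_apply, add_smul, Finset.sum_add_distrib]
        rcases ha with ha | ⟨i, hi⟩
        · rwa [ha, zero_add]
        rcases hb with hb | ⟨j, hj⟩
        · rw [hb, add_zero]
          exact Or.inr ⟨i, hi⟩
        rcases le_total (v σ (w i)) (v σ (w j)) with h | h
        · exact Or.inr ⟨j, (v σ).map_add_lt (hi.trans_le h) hj⟩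
        · exact Or.inr ⟨i, (v σ).map_add_lt hi (hj.trans_le h)⟩
      smul_mem' := by
        intro a b hb
        simp only [Set.mem_ofPred_eq, Pi.smul_apply, smul_assoc, ← Finset.smul_sum]
        refine hb.imp (fun h => by rw [h, smul_zero]) fun ⟨j, hj⟩ => ⟨j, ?_⟩
        rw [Algebra.smul_def, map_mul]
        exact (mul_le_of_le_one_left' (hv σ a)).trans_lt hj }
  obtain ⟨σ, hσ⟩ := Subspace.exists_eq_top_of_iUnion_eq_univ (p := U)
    (Set.eq_univ_of_forall fun c => (hn c).elim fun σ h => Set.mem_iUnion.2 ⟨σ, Or.inr h⟩)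
  obtain ⟨-, j₀, -⟩ := hn 0
  have : Nonempty J := ⟨j₀⟩
  obtain ⟨j, hj⟩ := Finite.exists_max fun j => v σ (w j)
  have e : ∀ j, ∑ i, (Pi.single j 1 : J → ℂ) i • w i = w j := fun j => by
    simp [Pi.single_apply]
  have h : ∀ j, w j = 0 ∨ ∃ i, v σ (w j) < v σ (w i) := fun j =>
    e j ▸ (hσ.ge Submodule.mem_top : Pi.single j 1 ∈ U σ)
  obtain h0 | ⟨i, hi⟩ := h j
  · obtain ⟨τ, i, hi⟩ := hn 0
    have h1 := hj i
    rw [h0, map_zero, le_zero_iff, map_eq_zero] at h1
    simp [h1] at hi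
  · exact hi.not_ge (hj i)

end Pool.Agent.Lib.MP_bc213e_ag.SB
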