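import Pool.Agent.Lib.MP_bc213e_ag.SB.D.Fam

/-! Coefficients of norm forms. -/

namespace Pool.Agent.Lib.MP_bc213e_ag.SB

open Module MvPolynomial IntermediateField Pool.Agent.Lib.MP_bc213e_ag.DB

theorem norm_span (F : Type) {K J : Type} [Field F] [Field K] [Algebra F K] [Algebra ℂ F]
    [Algebra ℂ K] [IsScalarTower ℂ F K] [FiniteDimensional F K] [Fintype J] (w : J → K) :
    ∃ T : Submodule ℂ F, T.FG ∧ ∀ c : J → ℂ, Algebra.norm F (∑ i, c i • w i) ∈ T := by
  classical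
  let b := finBasis F K
  refine ⟨_, Submodule.fg_span (Set.finite_range
    fun p : Equiv.Perm (Fin (finrank F K)) × (Fin (finrank F K) → J) =>
      ∏ i, Algebra.leftMulMatrix b (w (p.2 i)) (p.1 i) i), fun c => ?_⟩
  rw [Algebra.norm_eq_matrix_det b, Matrix.det_apply]
  refine sum_mem fun τ _ => ?_
  rw [Units.smul_def]
  refine zsmul_mem ?_ _
  have e : ∀ a i, Algebra.leftMulMatrix b (∑ j, c j • w j) a i =
      ∑ j, c j • Algebra.leftMulMatrix b (w j) a i := fun a i => by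
    rw [map_sum, Matrix.sum_apply]
    refine Finset.sum_congr rfl fun j _ => ?_
    rw [← algebraMap_smul F (c j) (w j), map_smul, Matrix.smul_apply, algebraMap_smul]
  simp only [e, Finset.prod_univ_sum, Finset.prod_smul]
  exact sum_mem fun φ _ => Submodule.smul_mem _ _ (Submodule.subset_span ⟨(τ, φ), rfl⟩)

variable {k K : Type} [Field k] [Field K] [Algebra k K] [Algebra ℂ k] [Algebra ℂ K]
  [IsScalarTower ℂ k K] {r : ℕ} {z : Fin r → K}

/-- The values of the elements of `Q` compute the product over all conjugates of the largest value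
of the `w j`. -/
def NQ (z : Fin r → K) {J : Type} (w : J → K) (μ : ℕ) (Q : Finset k) : Prop :=
  ∀ (Γ : Type) [LinearOrderedCommGroupWithZero Γ] (Φ : Fam (adjoin k (Set.range z)) K Γ) σ0
    (m : Fin (finrank (adjoin k (Set.range z)) K) → Γ),
    (∀ σ (c : ℂ), Φ.v σ (algebraMap ℂ K c) ≤ 1) →
      (∀ β γ, 1 ≤ γ → (∀ j, Φ.v σ0 (z j) ≤ γ) → (∀ q ∈ Q, Φ.v σ0 (algebraMap k K q) ≤ β) →
        (∀ σ, ∃ j, m σ ≤ Φ.v σ (w j)) →
          ∏ σ, m σ ≤ β * γ ^ (μ * finrank (adjoin k (Set.range z)) K)) ∧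
      (Gauss k z (Φ.v σ0) → (∀ σ j, Φ.v σ (w j) ≤ m σ) →
        ∀ q ∈ Q, Φ.v σ0 (algebraMap k K q) ≤ ∏ σ, m σ)

theorem exists_nq (hz : AlgebraicIndependent k z) [FiniteDimensional (adjoin k (Set.range z)) K]
    {J : Type} [Fintype J] {w : J → K} {μ : ℕ} (hw : ∀ j, w j ∈ Bd k z μ) :
    ∃ Q : Finset k, NQ z w μ Q := by
  classical
  have h1 : ∀ c : J → ℂ, ∃ p : MvPolynomial (Fin r) k,
      p.totalDegree ≤ μ * finrank (adjoin k (Set.range z)) K ∧
      aeval z p = (Algebra.norm (adjoin k (Set.range z)) (∑ i, c i • w i) :) := fun c => by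
    have h2 := norm_mem_Bd z (sum_mem fun i _ => Submodule.smul_of_tower_mem _ (c i) (hw i) :
      ∑ i, c i • w i ∈ Bd k z μ)
    obtain ⟨p, hp⟩ := kl_poly z hz (Subtype.property _) (isIntegral_of_Bd z h2)
    exact ⟨p, kl_deg z hz p (hp ▸ h2), hp⟩
  choose p p1 p2 using h1
  have : IsScalarTower ℂ (adjoin k (Set.range z)) K := .of_algebraMap_eq fun _ => rfl
  obtain ⟨T, hT, h2⟩ := norm_span (adjoin k (Set.range z)) w
  let ev : MvPolynomial (Fin r) k →ₗ[ℂ] K := (aeval z : _ →ₐ[k] K).toLinearMap.restrictScalars ℂ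
  have h3 : (Submodule.span ℂ (Set.range p)).FG := by
    refine Submodule.fg_of_fg_map_injective ev hz ?_
    refine (hT.map ((adjoin k (Set.range z)).val.toLinearMap.restrictScalars ℂ)).of_le ?_
    rw [Submodule.map_span, Submodule.span_le]
    rintro _ ⟨_, ⟨c, rfl⟩, rfl⟩
    exact ⟨_, h2 c, (p2 c).symm⟩
  obtain ⟨s, s1, s2⟩ := (Submodule.fg_span_iff_fg_span_finset_subset _).1 h3
  refine ⟨s.biUnion coeffs, fun Γ _ Φ σ0 m hc => ⟨fun β γ g1 g2 g3 g4 => ?_, fun g1 g2 q hq => ?_⟩⟩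
  · obtain ⟨c, h4⟩ := exists_generic Φ.v hc w
    refine (Finset.prod_le_prod' fun σ _ => (g4 σ).elim fun j hj => hj.trans (h4 σ j)).trans ?_
    rw [← Φ.norm σ0]
    refine (congrArg _ (p2 c)).ge.trans (aeval_le _ g1 g2 ?_ (p1 c))
    have h5 : p c ∈ Submodule.span ℂ (s : Set _) := s2 ▸ Submodule.subset_span ⟨c, rfl⟩
    generalize p c = q at h5
    induction h5 using Submodule.span_induction with
    | mem q hq =>
      intro α
      by_cases h : coeff α q = 0
      · simp [h]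
      · exact g3 _ (Finset.mem_biUnion.2 ⟨q, hq, coeff_mem_coeffs α h⟩)
    | zero => simp
    | add _ _ _ _ ha hb =>
      intro α
      rw [coeff_add, map_add]
      exact (Φ.v σ0).map_add_le (ha α) (hb α)
    | smul a _ _ ha =>
      intro α
      rw [coeff_smul, Algebra.smul_def, map_mul, map_mul, ← IsScalarTower.algebraMap_apply]
      exact (mul_le_of_le_one_left' (hc σ0 a)).trans (ha α)
  · obtain ⟨_, h4, h5⟩ := Finset.mem_biUnion.1 hq
    obtain ⟨c, rfl⟩ := s1 h4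
    obtain ⟨α, -, rfl⟩ := mem_coeffs_iff.1 h5
    refine (g1.2 _ α).trans ((congrArg _ (p2 c)).trans (Φ.norm σ0 _)).le |>.trans ?_
    refine Finset.prod_le_prod' fun σ _ => (Φ.v σ).map_sum_le fun j _ => ?_
    rw [Algebra.smul_def, map_mul]
    exact (mul_le_of_le_one_left' (hc σ _)).trans (g2 σ j)

end Pool.Agent.Lib.MP_bc213e_ag.SB
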