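import Pool.Agent.Lib.MP_bc213e_ag.SB.D.NN
import Pool.Agent.Lib.MP_bc213e_ag.SB.D.NQ
import Pool.Agent.Lib.MP_bc213e_ag.SB.D.Der
import Pool.Agent.Lib.MP_bc213e_ag.OW.B.Emb

/-! Linear projections that are finite over an open set of valuation rings of the base. -/

set_option linter.unusedSectionVars false

namespace Pool.Agent.Lib.MP_bc213e_ag.SB

open Module IntermediateField Pool.Agent.Lib.MP_bc213e_ag.Hyp Pool.Agent.Lib.MP_bc213e_ag.KBB

variable {k K ι : Type} [Field k] [Field K] [Algebra k K] [Algebra ℂ k] [Algebra ℂ K]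
  [IsScalarTower ℂ k K] {x g : ι → Kˣ}

theorem mem_bd {κ : Type} {z : κ → K} {μ : ℕ} {f : K}
    (h : ∀ (V : ValuationSubring K) γ, (∀ c, V.valuation (algebraMap k K c) ≤ 1) → 1 ≤ γ →
      (∀ j, V.valuation (z j) ≤ γ) → V.valuation f ≤ γ ^ μ) : f ∈ DB.Bd k z μ := by
  intro V c h1 h2 h3 h4
  have h5 := V.valuation.pos_iff.2 h2
  rw [← V.valuation_le_one_iff, map_div₀, map_pow, div_le_one₀ (pow_pos h5 _)]
  refine h V _ (fun c => (V.valuation_le_one_iff _).2 (h1 c)) ?_ fun j => ?_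
  · rwa [← V.valuation_le_one_iff, map_inv₀, inv_le_one₀ h5] at h3
  · have h6 := h4 j
    rwa [← V.valuation_le_one_iff, map_div₀, div_le_one₀ h5] at h6

theorem gen_div {i₀ : ι} (frac : IsFractionRing (chart x i₀) K) {u : K} (hu : u ≠ 0) :
    adjoin k (Set.range fun i => (x i : K) / u) = ⊤ := by
  have h : ∀ r ∈ chart x i₀, r ∈ adjoin k (Set.range fun i => (x i : K) / u) := fun r hr => by
    induction hr using Algebra.adjoin_induction with
    | mem r hr =>
      obtain ⟨j, rfl⟩ := hr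
      dsimp only
      rw [← div_div_div_cancel_right₀ hu]
      exact div_mem (subset_adjoin _ _ ⟨j, rfl⟩) (subset_adjoin _ _ ⟨i₀, rfl⟩)
    | algebraMap c =>
      rw [IsScalarTower.algebraMap_apply ℂ k K]
      exact IntermediateField.algebraMap_mem _ _
    | add _ _ _ _ h1 h2 => exact add_mem h1 h2
    | mul _ _ _ _ h1 h2 => exact mul_mem h1 h2
  refine eq_top_iff.2 fun z _ => ?_
  obtain ⟨a, b, -, rfl⟩ := IsFractionRing.div_surjective (chart x i₀) z
  exact div_mem (h _ a.2) (h _ b.2)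

theorem span_le {Γ κ : Type} [LinearOrderedCommGroupWithZero Γ] (v : Valuation K Γ)
    (hv : ∀ c : ℂ, v (algebraMap ℂ K c) ≤ 1) {l : κ → K} {γ : Γ} (h : ∀ i, v (l i) ≤ γ) {f : K}
    (hf : f ∈ Submodule.span ℂ (Set.range l)) : v f ≤ γ := by
  induction hf using Submodule.span_induction with
  | mem f hf => exact hf.elim fun i hi => hi ▸ h i
  | zero => simp
  | add _ _ _ _ h1 h2 => exact v.map_add_le h1 h2
  | smul c _ _ h1 =>
    rw [Algebra.smul_def, map_mul]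
    exact (mul_le_of_le_one_left' (hv c)).trans h1

theorem sec_le {Γ : Type} [LinearOrderedCommGroupWithZero Γ] (v : Valuation K Γ)
    (hv : ∀ c : ℂ, v (algebraMap ℂ K c) ≤ 1) {j : ι} (hj : ∀ i, v (x i) ≤ v (x j)) {t : ℤ} {a : ℕ}
    {s : K} (hs : Sec x g t a s) : v s ≤ v (g j) ^ t * v (x j) ^ a := by
  have h := Basic_le v hv x j hj _ (hs j)
  rwa [map_div₀, map_mul, map_zpow₀, map_pow,
    div_le_one₀ (mul_pos (zpow_pos (Basic_pos v _) _) (pow_pos (Basic_pos v _) _))] at h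

variable (k x) in
/-- The linear forms `l0`, `l0 * z j` have no common zero over the valuation rings that contain
`T`. -/
structure Frm where
  r : ℕ
  l0 : K
  z : Fin r → K
  T : Finset k
  ne : l0 ≠ 0
  tb : IsTranscendenceBasis k z
  fd : FiniteDimensional (adjoin k (Set.range z)) K
  m0 : l0 ∈ Submodule.span ℂ (Set.range fun i => (x i : K))
  m1 : ∀ j, l0 * z j ∈ Submodule.span ℂ (Set.range fun i => (x i : K))
  low : ∀ (Γ : Type) [LinearOrderedCommGroupWithZero Γ] (v : Valuation K Γ),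
    (∀ c : ℂ, v (algebraMap ℂ K c) ≤ 1) → (∀ c ∈ T, v (algebraMap k K c) ≤ 1) →
      ∀ γ, 1 ≤ γ → (∀ j, v (z j) ≤ γ) → ∀ i, v (x i) ≤ v l0 * γ

theorem cc_le {Γ : Type} [LinearOrderedCommGroupWithZero Γ] {v : Valuation K Γ}
    (h : ∀ c, v (algebraMap k K c) ≤ 1) (c : ℂ) : v (algebraMap ℂ K c) ≤ 1 := by
  rw [IsScalarTower.algebraMap_apply ℂ k K]
  exact h _

theorem exists_frm [Fintype ι] {i₀ : ι} (frac : IsFractionRing (chart x i₀) K)
    (O : ValuationSubring k) (hO : ∀ c : ℂ, algebraMap ℂ k c ∈ O) :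
    ∃ f : Frm k x, ∀ c ∈ f.T, c ∈ O := by
  let e := Fintype.equivFin ι
  obtain ⟨r, l0, z, T, h1, h2, h3, h4, h5, h6⟩ := nn_val O hO _ ((fun i => (x i : K)) ∘ e.symm)
    ⟨e i₀, Units.ne_zero _⟩
  rw [e.symm.surjective.range_comp] at h4 h5
  have h7 : ∀ (Γ : Type) [LinearOrderedCommGroupWithZero Γ] (v : Valuation K Γ),
      (∀ c : ℂ, v (algebraMap ℂ K c) ≤ 1) → (∀ c ∈ T, v (algebraMap k K c) ≤ 1) →
      ∀ γ, 1 ≤ γ → (∀ j, v (z j) ≤ γ) → ∀ i, v (x i) ≤ v l0 * γ := fun Γ _ v g1 g2 γ g3 g4 i => by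
    simpa using h6 Γ v g1 g2 (v l0 * γ) (le_mul_of_one_le_right' g3)
      (fun j => (map_mul v _ _).trans_le (mul_le_mul_right (g4 j) _)) (e i)
  have gen := gen_div (k := k) frac h1
  have h8 : IsTranscendenceBasis k z := by
    refine h2.isTranscendenceBasis_iff_isAlgebraic.2 ⟨fun y => ?_⟩
    have hy : y ∈ adjoin k (Set.range fun i => (x i : K) / l0) := gen ▸ mem_top
    induction hy using adjoin_induction with
    | mem y hy =>
      obtain ⟨i, rfl⟩ := hy
      refine (DB.nn_int z (μ := 1) (mem_bd fun V γ g1 g2 g3 => ?_)).isAlgebraic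
      rw [map_div₀, pow_one, div_le_iff₀' (V.valuation.pos_iff.2 h1)]
      exact h7 _ _ (cc_le g1) (fun c _ => g1 c) γ g2 g3 i
    | algebraMap c =>
      exact isAlgebraic_algebraMap (R := Algebra.adjoin k (Set.range z))
        ⟨_, Subalgebra.algebraMap_mem _ c⟩
    | add a b _ _ ha hb => exact ha.add hb
    | inv a _ ha => exact ha.inv
    | mul a b _ _ ha hb => exact ha.mul hb
  exact ⟨⟨r, l0, z, T, h1, h8, DB.fd_of_gen _ gen z h8, h4, h5, h7⟩, h3⟩

/-- A family of conjugate Gauss valuations over the valuation ring `O`. -/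
structure GF {r : ℕ} (z : Fin r → K) (O : ValuationSubring k) {Γ : Type}
    [LinearOrderedCommGroupWithZero Γ] (Φ : Fam (adjoin k (Set.range z)) K Γ) : Prop where
  cc : ∀ σ (c : ℂ), Φ.v σ (algebraMap ℂ K c) ≤ 1
  gauss : ∀ σ, Gauss k z (Φ.v σ)
  ov : ∀ σ c, Φ.v σ (algebraMap k K c) ≤ 1 ↔ c ∈ O

namespace Frm

variable (f : Frm k x)

/-- The degree of the projection. -/
noncomputable abbrev d : ℕ := finrank (adjoin k (Set.range f.z)) K

theorem d_pos : 0 < f.d := by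
  have := f.fd
  exact finrank_pos

theorem fam (V : ValuationSubring K) (hV : ∀ c : ℂ, algebraMap ℂ K c ∈ V) :
    ∃ (Γ : Type) (_ : LinearOrderedCommGroupWithZero Γ) (Φ : Fam (adjoin k (Set.range f.z)) K Γ)
      (σ : Fin f.d), (∀ τ (c : ℂ), Φ.v τ (algebraMap ℂ K c) ≤ 1) ∧ (Φ.v σ).IsEquiv V.valuation := by
  have := f.fd
  have : CharZero k := charZero_of_injective_algebraMap (algebraMap ℂ k).injective
  have : CharZero (adjoin k (Set.range f.z)) :=
    charZero_of_injective_algebraMap (algebraMap k _).injective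
  obtain ⟨Γ, _, Φ, σ, h⟩ := exists_fam (adjoin k (Set.range f.z)) V
  refine ⟨Γ, inferInstance, Φ, σ, fun τ c => ?_, h⟩
  rw [IsScalarTower.algebraMap_apply ℂ k K, Φ.agree_k τ σ, ← IsScalarTower.algebraMap_apply]
  exact h.le_one_iff_le_one.2 ((V.valuation_le_one_iff _).2 (hV c))

theorem gf (O : ValuationSubring k) (hO : ∀ c : ℂ, algebraMap ℂ k c ∈ O) :
    ∃ (Γ : Type) (_ : LinearOrderedCommGroupWithZero Γ) (Φ : Fam (adjoin k (Set.range f.z)) K Γ),
      GF f.z O Φ := by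
  obtain ⟨V, h1, h2⟩ := exists_gauss f.tb.1 O
  obtain ⟨Γ, _, Φ, σ, h3, h4⟩ := f.fam V fun c => by
    rw [IsScalarTower.algebraMap_apply ℂ k K]
    exact (h1 _).2 (hO c)
  refine ⟨Γ, inferInstance, Φ, h3, Φ.gauss (σ0 := σ) ⟨fun j => h4.le_one_iff_le_one.2 (h2.1 j),
    fun p α => (h4 _ _).2 (h2.2 p α)⟩, fun τ c => ?_⟩
  rw [Φ.agree_k τ σ, h4.le_one_iff_le_one, V.valuation_le_one_iff, h1]

theorem mem_bd [Finite ι] [Nonempty ι] {F : K} {a : ℕ}
    (h : ∀ (V : ValuationSubring K) j, (∀ c, V.valuation (algebraMap k K c) ≤ 1) →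
      (∀ i, V.valuation (x i) ≤ V.valuation (x j)) → V.valuation F ≤ V.valuation (x j) ^ a) :
    F / f.l0 ^ a ∈ DB.Bd k f.z a := by
  refine SB.mem_bd fun V γ g1 g2 g3 => ?_
  obtain ⟨j, hj⟩ := Finite.exists_max fun i => V.valuation (x i)
  rw [map_div₀, map_pow, div_le_iff₀' (pow_pos (V.valuation.pos_iff.2 f.ne) _), ← mul_pow]
  exact (h V j g1 hj).trans
    (pow_le_pow_left' (f.low _ _ (cc_le g1) (fun c _ => g1 c) γ g2 g3 j) _)

theorem val_eq {O : ValuationSubring k} (hT : ∀ c ∈ f.T, c ∈ O) {Γ : Type}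
    [LinearOrderedCommGroupWithZero Γ] {Φ : Fam (adjoin k (Set.range f.z)) K Γ} (h : GF f.z O Φ)
    (σ) {j : ι} (hj : ∀ i, Φ.v σ (x i) ≤ Φ.v σ (x j)) : Φ.v σ (x j) = Φ.v σ f.l0 :=
  le_antisymm ((f.low _ _ (h.cc σ) (fun c hc => (h.ov σ c).2 (hT c hc)) 1 le_rfl
    (h.gauss σ).1 j).trans_eq (mul_one _)) (span_le _ (h.cc σ) hj f.m0)

/-- Bounds at the Gauss extensions of the prime divisors of `B` imply bounds over `B`. -/
theorem hart {B : Subalgebra ℂ k} [IsNoetherianRing B] [IsFractionRing B k] [IsIntegrallyClosed B]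
    {F : K} {a : ℕ} (h1 : F / f.l0 ^ a ∈ DB.Bd k f.z a)
    (h2 : ∀ w, PrimeDiv B w → ∀ (Γ : Type) [LinearOrderedCommGroupWithZero Γ]
      (Φ : Fam (adjoin k (Set.range f.z)) K Γ), GF f.z w.valuationSubring Φ →
        ∀ σ, Φ.v σ (F / f.l0 ^ a) ≤ 1)
    (j : ι) (V : ValuationSubring K) (hB : ∀ r ∈ B, algebraMap k K r ∈ V)
    (hj : ∀ r ∈ chart x j, r ∈ V) : F / (x j : K) ^ a ∈ V := by
  have := f.fd
  obtain ⟨Q, hQ⟩ := exists_nq f.tb.1 (μ := a)
    (w := fun o : Option (Option (Fin f.r)) => o.elim (F / f.l0 ^ a) fun o => o.elim 1 f.z ^ a)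
    fun o => by
      rcases o with _ | o
      · exact h1
      · refine SB.mem_bd fun V γ _ g2 g3 => ?_
        rw [Option.elim_some, map_pow]
        refine pow_le_pow_left' ?_ _
        cases o
        · simpa using g2
        · exact g3 _
  have h3 : ∀ q ∈ Q, q ∈ B := fun q hq => hartogs fun w hw => by
    obtain ⟨Γ, _, Φ, h⟩ := f.gf w.valuationSubring fun c => hw.2.1 _ (B.algebraMap_mem c)
    refine (h.ov ⟨0, f.d_pos⟩ q).1 (((hQ Γ Φ _ (fun _ => 1) h.cc).2 (h.gauss _)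
      (fun σ o => ?_) q hq).trans_eq Finset.prod_const_one)
    rcases o with _ | o
    · exact h2 w hw Γ Φ h σ
    · change Φ.v σ (_ ^ a) ≤ 1
      rw [map_pow]
      refine pow_le_one' ?_ _
      cases o
      · simp
      · exact (h.gauss σ).1 _
  obtain ⟨Γ, _, Φ, σ, h4, h5⟩ := f.fam V fun c => hj _ ((chart x j).algebraMap_mem c)
  have h6 : ∀ y, y ∈ V ↔ Φ.v σ y ≤ 1 := fun y => by
    rw [h5.le_one_iff_le_one, V.valuation_le_one_iff]
  obtain ⟨o, ho⟩ := Finite.exists_max fun o : Option (Fin f.r) => Φ.v σ (o.elim 1 f.z)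
  have h7 : 1 ≤ Φ.v σ (o.elim 1 f.z) := (map_one _).ge.trans (ho none)
  have h8 := (hQ Γ Φ σ (Function.update (fun _ => Φ.v σ (o.elim 1 f.z) ^ a) σ
    (Φ.v σ (F / f.l0 ^ a))) h4).1 1 _ h7 (fun i => ho (some i))
    (fun q hq => (h6 _).1 (hB q (h3 q hq))) fun τ => by
      rcases eq_or_ne τ σ with rfl | e
      · exact ⟨none, (Function.update_self ..).le⟩
      · refine ⟨some o, (Function.update_of_ne e ..).trans_le (le_of_eq ?_)⟩
        change _ = Φ.v τ (_ ^ a)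
        rw [map_pow, Φ.agree' τ σ]
        cases o
        · exact one_mem _
        · exact subset_adjoin _ _ ⟨_, rfl⟩
  have h9 := zero_lt_one.trans_le h7
  rw [Finset.prod_update_of_mem (Finset.mem_univ σ), Finset.prod_const, one_mul, pow_mul,
    Finset.card_univ_sdiff, Fintype.card_fin, Finset.card_singleton,
    ← pow_sub_one_mul f.d_pos.ne' (_ ^ a), mul_comm,
    mul_le_mul_iff_right₀ (pow_pos (pow_pos h9 _) _), map_div₀, map_pow,
    div_le_iff₀ (pow_pos ((Φ.v σ).pos_iff.2 f.ne) _), ← mul_pow, ← map_mul, mul_comm] at h8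
  rw [h6, map_div₀, map_pow, div_le_one₀ (pow_pos (Basic_pos _ _) _)]
  refine h8.trans (pow_le_pow_left' (span_le _ (h4 σ) (l := fun i => (x i : K)) (fun i => ?_) ?_) _)
  · have := (h6 _).1 (hj _ (Basic_mem x j i))
    rwa [map_div₀, div_le_one₀ (Basic_pos _ _)] at this
  · cases o
    · simpa using f.m0
    · exact f.m1 _

end Frm

end Pool.Agent.Lib.MP_bc213e_ag.SB
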