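import Pool.Agent.Lib.MP_bc213e_ag.SB.D.Cmp
import Pool.Agent.Lib.MP_bc213e_ag.OW.G.Val
import Pool.Agent.Lib.MP_bc213e_ag.OW.C.Defs

/-! Local equations on the base. -/

set_option linter.unusedSectionVars false

namespace Pool.Agent.Lib.MP_bc213e_ag.SB

open Module IntermediateField Pool.Agent.Lib.MP_bc213e_ag.Hyp Pool.Agent.Lib.MP_bc213e_ag.KBB

variable {k K ι : Type} [Field k] [Field K] [Algebra k K] [Algebra ℂ k] [Algebra ℂ K]
  [IsScalarTower ℂ k K] {x g : ι → Kˣ} [Fintype ι] [Nonempty ι] {θ : K}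

theorem exists_gen (hc : Cart x g) (t : ℤ) : ∃ e, ∀ j, Sec x g t e (fr x g t e j) := by
  choose e he using main_sec hc t
  refine ⟨Finset.univ.sup e, fun j => ?_⟩
  obtain ⟨m, hm⟩ := Nat.exists_eq_add_of_le (Finset.le_sup (f := e) (Finset.mem_univ j))
  have h := OW.sec_mul (he j) (OW.sec_x x g j m)
  rwa [← fr_zero x g, ← fr_add, add_zero, ← hm] at h

theorem Frm.ord_eq (f : Frm k x) {i₀ : ι} (frac : IsFractionRing (chart x i₀) K) (hc : Cart x g)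
    (hn : Nef x g) (closed : ∀ e : K, IsAlgebraic k e → e ∈ (algebraMap k K).range)
    (tor : TorV k x g θ) {w : Val k} (hT : ∀ c ∈ f.T, c ∈ w.valuationSubring) {Γ : Type}
    [LinearOrderedCommGroupWithZero Γ] {Φ : Fam (adjoin k (Set.range f.z)) K Γ}
    (h : GF f.z w.valuationSubring Φ) {c : Fin f.d → ι}
    (h1 : ∀ σ i, Φ.v σ (x i) ≤ Φ.v σ (x (c σ))) {q : k} (σ)
    (hq : Φ.v σ (algebraMap k K q) = ∏ σ, Φ.v σ (g (c σ) / θ)) :
    Φ.v σ (algebraMap k K q) = Φ.v σ (g (c σ) / θ) ^ f.d := by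
  have := f.fd
  refine h.eq_of closed (m := fun σ => Φ.v σ (g (c σ) / θ))
    (fun σ => (Φ.v σ).pos_iff.2 (div_ne_zero (Units.ne_zero _) tor.ne)) (fun σ => ?_) σ hq
  obtain ⟨a, -, h2⟩ := DD.pf hc hn (c σ) (OW.valCentre _ (Φ.v σ).valuationSubring
    (Basic_le _ (h.cc σ) x _ (h1 σ))) (OW.valCentre_prime ..).ne_top
  choose r r0 r1 using h2
  refine ⟨_, f.bd_fd frac a, _, fun t => f.sec_bd tor (r1 t), fun τ t => ?_, fun t => ?_⟩
  · simpa only [zpow_natCast] using f.sec_le hT h h1 tor.ne τ (r1 t)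
  · refine (zpow_natCast _ t).ge.trans (f.sec_ge hT h h1 tor.ne σ ?_)
    rw [map_mul, (Φ.v σ).isEquiv_valuation_valuationSubring.eq_one_iff_eq_one.2
      (OW.notMem_valCentre.1 (r0 t)), one_mul]

theorem Frm.exists_eqn (f : Frm k x) {i₀ : ι} (frac : IsFractionRing (chart x i₀) K) (hc : Cart x g)
    (hn : Nef x g) (closed : ∀ e : K, IsAlgebraic k e → e ∈ (algebraMap k K).range)
    (tor : TorV k x g θ) (O : ValuationSubring k) (hO : ∀ c : ℂ, algebraMap ℂ k c ∈ O)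
    (hT : ∀ c ∈ f.T, c ∈ O) : ∃ (q : kˣ) (T : Finset k), f.T ⊆ T ∧ (∀ c ∈ T, c ∈ O) ∧
      ∀ (B : Subalgebra ℂ k) [IsNoetherianRing B] [IsFractionRing B k] [IsIntegrallyClosed B],
        (∀ c ∈ T, c ∈ B) → ∀ j (V : ValuationSubring K), (∀ r ∈ B, algebraMap k K r ∈ V) →
          (∀ r ∈ chart x j, r ∈ V) →
            V.valuation (algebraMap k K q * θ ^ f.d) = V.valuation ((g j : K) ^ f.d) := by
  classical
  have := f.fd
  obtain ⟨e, he⟩ := exists_gen hc 1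
  obtain ⟨Q, hQ⟩ := exists_nq f.tb.1 fun j => f.sec_bd tor (he j)
  have key : ∀ (O' : ValuationSubring k), (∀ c ∈ f.T, c ∈ O') → ∀ (Γ : Type)
      [LinearOrderedCommGroupWithZero Γ] (Φ : Fam (adjoin k (Set.range f.z)) K Γ), GF f.z O' Φ →
      ∀ c : Fin f.d → ι, (∀ σ i, Φ.v σ (x i) ≤ Φ.v σ (x (c σ))) → ∀ σ,
        (∀ β, (∀ q ∈ Q, Φ.v σ (algebraMap k K q) ≤ β) → ∏ σ, Φ.v σ (g (c σ) / θ) ≤ β) ∧
        ∀ q ∈ Q, Φ.v σ (algebraMap k K q) ≤ ∏ σ, Φ.v σ (g (c σ) / θ) :=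
    fun O' h1 Γ _ Φ h c h2 σ => ⟨fun β hβ => by
      simpa using (hQ Γ Φ σ _ h.cc).1 β 1 le_rfl (h.gauss σ).1 hβ fun τ =>
        ⟨c τ, (zpow_one _).ge.trans (f.sec_ge h1 h h2 tor.ne τ le_rfl)⟩,
      (hQ Γ Φ σ _ h.cc).2 (h.gauss σ) fun τ j =>
        (f.sec_le h1 h h2 tor.ne τ (he j)).trans_eq (zpow_one _)⟩
  obtain ⟨q', q1, q2⟩ : ∃ q ∈ Q, q ≠ 0 := by
    by_contra h0
    push Not at h0
    obtain ⟨Γ, _, Φ, h⟩ := f.gf O hO
    choose c h1 using fun σ => Finite.exists_max fun i => Φ.v σ (x i)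
    refine ((key O hT Γ Φ h c h1 ⟨0, f.d_pos⟩).1 0 fun q hq => by simp [h0 q hq]).not_gt
      (Finset.prod_pos fun σ _ => (Φ.v σ).pos_iff.2 (div_ne_zero (Units.ne_zero _) tor.ne))
  obtain ⟨q, q3, q4⟩ := Q.exists_max_image O.valuation ⟨q', q1⟩
  have q0 : q ≠ 0 := O.valuation.pos_iff.1 ((O.valuation.pos_iff.2 q2).trans_le (q4 q' q1))
  have q5 : algebraMap k K q ≠ 0 := (map_ne_zero _).2 q0
  refine ⟨Units.mk0 q q0, f.T ∪ Q.image (· / q), Finset.subset_union_left, fun c h => ?_,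
    fun B _ _ _ hB j V h1 h2 => ?_⟩
  · refine (Finset.mem_union.1 h).elim (hT c) fun h => ?_
    obtain ⟨p, hp, rfl⟩ := Finset.mem_image.1 h
    rw [← O.valuation_le_one_iff, map_div₀]
    exact div_le_one_of_le₀ (q4 p hp) zero_le
  have h3 : ∀ ε : ℤ, ((g j : K) ^ f.d / (algebraMap k K q * θ ^ f.d)) ^ ε ∈ V := fun ε => by
    obtain ⟨a, ha⟩ := exists_gen hc ε
    have h4 := OW.sec_pow (ha j) f.d
    have h5 := f.hart (B := B) (F := (q ^ ε)⁻¹ • (fr x g ε a j ^ f.d / θ ^ (f.d * ε)))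
      (a := f.d * a) (smul_div_assoc (q ^ ε)⁻¹ _ (f.l0 ^ (f.d * a)) ▸
        Submodule.smul_mem _ _ (f.sec_bd tor h4)) (fun w hw Γ _ Φ h σ => by
      have g1 : ∀ c ∈ f.T, c ∈ w.valuationSubring := fun c hc =>
        hw.2.1 c (hB c (Finset.mem_union_left _ hc))
      choose c g2 using fun σ => Finite.exists_max fun i => Φ.v σ (x i)
      have g3 := (Φ.v σ).pos_iff.2 q5
      have g4 := f.ord_eq frac hc hn closed tor g1 h g2 σ (le_antisymm
        ((key _ g1 Γ Φ h c g2 σ).2 q q3) ((key _ g1 Γ Φ h c g2 σ).1 _ fun p hp => by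
          have g4 := (h.ov σ _).2 (hw.2.1 _ (hB _ (Finset.mem_union_right _
            (Finset.mem_image_of_mem _ hp))))
          rwa [map_div₀, map_div₀, div_le_one₀ g3] at g4))
      rw [smul_div_assoc, Algebra.smul_def, map_mul, map_inv₀, map_inv₀, map_zpow₀, map_zpow₀,
        inv_mul_le_one₀ (zpow_pos g3 _), g4, ← zpow_natCast (Φ.v σ _), ← zpow_mul]
      exact f.sec_le g1 h g2 tor.ne σ h4) j V h1 h2
    have h6 := (x j).ne_zero
    have h7 := zpow_ne_zero ε q5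
    have h8 := zpow_ne_zero (f.d * ε) tor.ne
    refine (congrArg (· ∈ V) ?_).mp h5
    rw [Algebra.smul_def, map_inv₀, map_zpow₀, fr, div_zpow, mul_zpow, ← zpow_natCast θ, ← zpow_mul,
      mul_pow, ← pow_mul, mul_comm a, ← zpow_natCast (_ ^ ε), ← zpow_natCast (g j : K), ← zpow_mul,
      ← zpow_mul, mul_comm ε]
    field_simp
  have h4 := mul_ne_zero q5 (pow_ne_zero f.d tor.ne)
  have h5 := OW.Val_one (div_ne_zero (pow_ne_zero _ (g j).ne_zero) h4) (by simpa using h3 1)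
    (by simpa only [zpow_neg_one] using h3 (-1))
  rw [map_div₀, div_eq_one_iff_eq (V.valuation.pos_iff.2 h4).ne'] at h5
  exact h5.symm

end Pool.Agent.Lib.MP_bc213e_ag.SB
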