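import Pool.Agent.Lib.MP_bc213e_ag.SB.D.Fam

/-! Linear Noether normalisation over a valuation ring. -/

namespace Pool.Agent.Lib.MP_bc213e_ag.SB

open Module MvPolynomial Pool.Agent.Lib.MP_bc213e_ag.DB

variable {k K : Type} [Field k] [Field K] [Algebra k K] [Algebra ℂ k] [Algebra ℂ K]
  [IsScalarTower ℂ k K]

theorem exists_point {Γ : Type} [LinearOrderedCommGroupWithZero Γ] (v : Valuation k Γ)
    (hv : ∀ c : ℂ, v (algebraMap ℂ k c) ≤ 1) {m : ℕ} {Q : MvPolynomial (Fin m) k} (hQ : Q ≠ 0) :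
    ∃ a : Fin m → ℂ, eval (fun j => algebraMap ℂ k (a j)) Q ≠ 0 ∧
      ∀ α, v (coeff α Q) ≤ v (eval (fun j => algebraMap ℂ k (a j)) Q) := by
  obtain ⟨β, h0, hβ⟩ := Q.support.exists_max_image (fun β => v (coeff β Q)) (support_nonempty.2 hQ)
  have h1 := v.pos_iff.2 (mem_support_iff.1 h0)
  suffices h : ∃ a : Fin m → ℂ, v (coeff β Q) ≤ v (eval (fun j => algebraMap ℂ k (a j)) Q) by
    obtain ⟨a, ha⟩ := h
    refine ⟨a, v.pos_iff.1 (h1.trans_le ha), fun α => le_trans ?_ ha⟩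
    by_cases h : coeff α Q = 0
    · simp [h]
    · exact hβ α (mem_support_iff.2 h)
  by_contra hn
  push Not at hn
  let U : Submodule ℂ k :=
    { carrier := {c | v c < v (coeff β Q)}
      zero_mem' := by simpa using h1
      add_mem' := fun ha hb => v.map_add_lt ha hb
      smul_mem' := fun a b hb => by
        rw [Set.mem_ofPred_eq, Algebra.smul_def, map_mul]
        exact (mul_le_of_le_one_left' (hv a)).trans_lt hb }
  obtain ⟨f, f1, f2⟩ := U.exists_le_ker_of_notMem (v := coeff β Q) (lt_irrefl (v (coeff β Q)))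
  have h2 : ∑ α ∈ Q.support, monomial α (f (coeff α Q)) = 0 := MvPolynomial.funext fun a => by
    rw [map_zero, ← LinearMap.mem_ker.1 (f2 (hn a)), map_sum, eval_eq' _ Q, map_sum]
    refine Finset.sum_congr rfl fun α _ => ?_
    rw [eval_monomial, Finsupp.prod_fintype _ _ fun _ => pow_zero _, mul_comm, ← smul_eq_mul,
      ← map_smul, Algebra.smul_def, mul_comm]
    simp
  have h3 := congrArg (coeff β) h2
  simp only [coeff_sum, coeff_monomial, Finset.sum_ite_eq', h0, if_true, coeff_zero] at h3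
  exact f1 h3

theorem nn_one (O : ValuationSubring k) (hO : ∀ c : ℂ, algebraMap ℂ k c ∈ O) {m : ℕ}
    {u : Fin m → K} (hu : ¬ AlgebraicIndependent k u) : ∃ (a : Fin m → ℂ) (T : Finset k),
      (∀ c ∈ T, c ∈ O) ∧ ∀ (Γ : Type) [LinearOrderedCommGroupWithZero Γ] (v : Valuation K Γ),
        (∀ c : ℂ, v (algebraMap ℂ K c) ≤ 1) → (∀ c ∈ T, v (algebraMap k K c) ≤ 1) →
          ∃ j, 1 ≤ v (u j - algebraMap ℂ K (a j)) := by
  rw [algebraicIndependent_iff] at hu
  push Not at hu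
  obtain ⟨Q, h0, hQ⟩ := hu
  obtain ⟨a, a0, ha⟩ := exists_point O.valuation (fun c => (O.valuation_le_one_iff _).2 (hO c)) hQ
  set e := eval (fun j => algebraMap ℂ k (a j)) Q with he
  refine ⟨a, (C e⁻¹ * Q).coeffs, fun c hc => ?_, fun Γ _ v h1 h2 => by_contra fun hn => ?_⟩
  · obtain ⟨α, -, rfl⟩ := mem_coeffs_iff.1 hc
    rw [← O.valuation_le_one_iff, coeff_C_mul, inv_mul_eq_div, map_div₀]
    exact div_le_one_of_le₀ (ha α) zero_le
  push Not at hn
  have h3 : aeval u (C e⁻¹ * Q) = 0 := by rw [map_mul, h0, mul_zero]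
  have h4 : eval (fun j => algebraMap ℂ k (a j)) (C e⁻¹ * Q) = 1 := by
    rw [map_mul, eval_C, inv_mul_cancel₀ a0]
  generalize C e⁻¹ * Q = P at h2 h3 h4
  have h5 : v (aeval u P - algebraMap k K (eval (fun j => algebraMap ℂ k (a j)) P)) < 1 := by
    rw [aeval_def, eval₂_eq', eval_eq', map_sum, ← Finset.sum_sub_distrib]
    refine v.map_sum_lt one_ne_zero fun α hα => ?_
    rw [map_mul, ← mul_sub, map_mul]
    refine (mul_le_of_le_one_left' (h2 _ (coeff_mem_coeffs α (mem_support_iff.1 hα)))).trans_lt ?_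
    have h6 := v.isEquiv_valuation_valuationSubring
    simpa [← IsScalarTower.algebraMap_apply] using h6.lt_one_iff_lt_one.2 (nn_cong
      v.valuationSubring h1 u a (fun j => h6.lt_one_iff_lt_one.1 (hn j)) (∏ j, X j ^ α j))
  simp [h3, h4] at h5

theorem nn_val (O : ValuationSubring k) (hO : ∀ c : ℂ, algebraMap ℂ k c ∈ O) (m : ℕ) :
    ∀ l : Fin m → K, (∃ i, l i ≠ 0) → ∃ (r : ℕ) (l0 : K) (z : Fin r → K) (T : Finset k),
      l0 ≠ 0 ∧ AlgebraicIndependent k z ∧ (∀ c ∈ T, c ∈ O) ∧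
      l0 ∈ Submodule.span ℂ (Set.range l) ∧ (∀ j, l0 * z j ∈ Submodule.span ℂ (Set.range l)) ∧
      ∀ (Γ : Type) [LinearOrderedCommGroupWithZero Γ] (v : Valuation K Γ),
        (∀ c : ℂ, v (algebraMap ℂ K c) ≤ 1) → (∀ c ∈ T, v (algebraMap k K c) ≤ 1) →
        ∀ γ, v l0 ≤ γ → (∀ j, v (l0 * z j) ≤ γ) → ∀ i, v (l i) ≤ γ := by
  classical
  induction m with
  | zero => exact fun _ ⟨i, _⟩ => i.elim0
  | succ m ih =>
  rintro l ⟨i, hi⟩
  have hl : ∀ j, l j ∈ Submodule.span ℂ (Set.range l) := fun j => Submodule.subset_span ⟨j, rfl⟩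
  by_cases hu : AlgebraicIndependent k fun j => l (i.succAbove j) / l i
  · refine ⟨m, l i, _, ∅, hi, hu, by simp, hl i, fun j => ?_, fun Γ _ v _ _ γ h1 h2 => ?_⟩
    · rw [mul_div_cancel₀ _ hi]
      exact hl _
    · refine i.forall_iff_succAbove.2 ⟨h1, fun j => ?_⟩
      simpa only [mul_div_cancel₀ _ hi] using h2 j
  obtain ⟨a, T, h1, h2⟩ := nn_one O hO hu
  have h3 : ∀ (Γ : Type) [LinearOrderedCommGroupWithZero Γ] (v : Valuation K Γ),
      (∀ c : ℂ, v (algebraMap ℂ K c) ≤ 1) → (∀ c ∈ T, v (algebraMap k K c) ≤ 1) →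
        ∃ j, v (l i) ≤ v (l (i.succAbove j) - a j • l i) := fun Γ _ v g1 g2 => by
    obtain ⟨j, hj⟩ := h2 Γ v g1 g2
    refine ⟨j, ?_⟩
    rwa [div_sub' hi, map_div₀, one_le_div₀ (v.pos_iff.2 hi), mul_comm, ← Algebra.smul_def] at hj
  obtain ⟨r, l0, z, T', g1, g2, g3, g4, g5, g6⟩ := ih (fun j => l (i.succAbove j) - a j • l i) (by
    obtain ⟨j, hj⟩ := h3 _ (⊤ : ValuationSubring K).valuation
      (fun _ => (ValuationSubring.valuation_le_one_iff _ _).2 trivial)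
      fun _ _ => (ValuationSubring.valuation_le_one_iff _ _).2 trivial
    exact ⟨j, (Valuation.pos_iff _).1 (((Valuation.pos_iff _).2 hi).trans_le hj)⟩)
  have h4 : Submodule.span ℂ (Set.range fun j => l (i.succAbove j) - a j • l i) ≤
      Submodule.span ℂ (Set.range l) := Submodule.span_le.2 (Set.range_subset_iff.2 fun j =>
    sub_mem (hl _) (Submodule.smul_mem _ _ (hl i)))
  refine ⟨r, l0, z, T ∪ T', g1, g2, fun c hc => (Finset.mem_union.1 hc).elim (h1 c) (g3 c), h4 g4,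
    fun j => h4 (g5 j), fun Γ _ v k1 k2 γ k3 k4 => ?_⟩
  have k5 := g6 Γ v k1 (fun c hc => k2 c (Finset.mem_union_right _ hc)) γ k3 k4
  obtain ⟨j, hj⟩ := h3 Γ v k1 fun c hc => k2 c (Finset.mem_union_left _ hc)
  refine i.forall_iff_succAbove.2 ⟨hj.trans (k5 j), fun j' => ?_⟩
  rw [← sub_add_cancel (l (i.succAbove j')) (a j' • l i)]
  refine v.map_add_le (k5 j') ?_
  rw [Algebra.smul_def, map_mul]
  exact (mul_le_of_le_one_left' (k1 _)).trans (hj.trans (k5 j))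

end Pool.Agent.Lib.MP_bc213e_ag.SB
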